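import Pool.Agent.TH138.UD.U8

set_option autoImplicit false

/-!
# Definitions for the hand-in
-/

namespace Pool.Agent.TH138.UD

open MvPolynomial Pool.Agent.TH138.LG

/-- the ideal generated by `I` over the algebraic closure -/
noncomputable def geom {k : Type} [Field k] {n : ℕ} (I : Ideal (MvPolynomial (Fin (n + 1)) k)) :
    Ideal (MvPolynomial (Fin (n + 1)) (AlgebraicClosure k)) :=
  I.map (MvPolynomial.map (algebraMap k (AlgebraicClosure k)))

/-- the projective variety of the homogeneous prime ideal `J` is the closure of the image of a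
polynomial map `[P 0 : … : P n]` -/
def Unirational {L : Type} [Field L] {n : ℕ} (J : Ideal (MvPolynomial (Fin (n + 1)) L)) : Prop :=
  ∃ (s : ℕ) (P : Fin (n + 1) → MvPolynomial (Fin s) L),
    ∀ (d : ℕ) (F : MvPolynomial (Fin (n + 1)) L), F.IsHomogeneous d → (F ∈ J ↔ aeval P F = 0)

/-- the set `S` of vectors is dense in the projective variety of the homogeneous ideal `I` -/
def DenseIn {k K : Type} [Field k] [Field K] [Algebra k K] {n : ℕ}
    (I : Ideal (MvPolynomial (Fin (n + 1)) k)) (S : Set (Fin (n + 1) → K)) : Prop :=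
  ∀ (d : ℕ) (F : MvPolynomial (Fin (n + 1)) k), F.IsHomogeneous d →
    (F ∈ I ↔ ∀ x ∈ S, aeval x F = 0)

/-- the vectors `M B ^ m v` -/
def recVecs {K ι : Type} [Field K] {r : ℕ} (M : Matrix ι (Fin r) K)
    (B : Matrix.GeneralLinearGroup (Fin r) K) (v : Fin r → K) : Set (ι → K) :=
  {x | ∃ m : ℕ, x = M.mulVec (((B ^ m : Matrix.GeneralLinearGroup (Fin r) K) :
    Matrix (Fin r) (Fin r) K).mulVec v)}

/-- the vectors `M ρ(a₁) ⋯ ρ(a_m) v` for the words `a₁ ⋯ a_m` of `𝓛` -/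
def wordVecs {K A ι : Type} [Field K] {r : ℕ} (M : Matrix ι (Fin r) K)
    (ρ : A → Matrix.GeneralLinearGroup (Fin r) K) (v : Fin r → K) (𝓛 : Set (List A)) :
    Set (ι → K) :=
  {x | ∃ w ∈ 𝓛, x = affVec M ρ v w}

/-- over some number field, the vectors `M B ^ m v` are dense, for some `M`, `B`, `v` -/
def RecDense {k : Type} [Field k] {n : ℕ} (I : Ideal (MvPolynomial (Fin (n + 1)) k)) : Prop :=
  ∃ (K : Type) (_ : Field K) (_ : NumberField K) (_ : Algebra k K) (r : ℕ)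
    (M : Matrix (Fin (n + 1)) (Fin r) K) (B : Matrix.GeneralLinearGroup (Fin r) K)
    (v : Fin r → K), DenseIn I (recVecs M B v)

/-- over some number field, a context-free family of vectors is dense -/
def GrammarDense {k : Type} [Field k] {n : ℕ} (I : Ideal (MvPolynomial (Fin (n + 1)) k)) :
    Prop :=
  ∃ (K : Type) (_ : Field K) (_ : NumberField K) (_ : Algebra k K) (A : Type) (_ : Finite A)
    (r : ℕ) (M : Matrix (Fin (n + 1)) (Fin r) K) (ρ : A → Matrix.GeneralLinearGroup (Fin r) K)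
    (v : Fin r → K) (g : ContextFreeGrammar A), DenseIn I (wordVecs M ρ v g.language)

theorem density' {k : Type} [Field k] [NumberField k] {n : ℕ}
    (I : Ideal (MvPolynomial (Fin (n + 1)) k))
    (hhom : ∀ F ∈ I, ∀ d : ℕ, homogeneousComponent d F ∈ I) (hI : (geom I).IsPrime) :
    (Unirational (geom I) ↔ RecDense I) ∧ (Unirational (geom I) ↔ GrammarDense I) := by
  have h := density I hhom hI
  have h1 : RecDense I ↔ ∃ (K : Type) (_ : Field K) (_ : NumberField K) (_ : Algebra k K) (r : ℕ)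
      (M : Matrix (Fin (n + 1)) (Fin r) K) (B : Matrix.GeneralLinearGroup (Fin r) K)
      (v : Fin r → K), ∀ (d : ℕ) (F : MvPolynomial (Fin (n + 1)) k), F.IsHomogeneous d →
        (F ∈ I ↔ ∀ m : ℕ, aeval (M.mulVec (((B ^ m : Matrix.GeneralLinearGroup (Fin r) K) :
          Matrix (Fin r) (Fin r) K).mulVec v)) F = 0) := by
    constructor
    · rintro ⟨K, i1, i2, i3, r, M, B, v, h⟩
      refine ⟨K, i1, i2, i3, r, M, B, v, fun d F hF => (h d F hF).trans ?_⟩
      exact ⟨fun h m => h _ ⟨m, rfl⟩, by rintro h _ ⟨m, rfl⟩; exact h m⟩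
    · rintro ⟨K, i1, i2, i3, r, M, B, v, h⟩
      refine ⟨K, i1, i2, i3, r, M, B, v, fun d F hF => (h d F hF).trans ?_⟩
      exact ⟨by rintro h _ ⟨m, rfl⟩; exact h m, fun h m => h _ ⟨m, rfl⟩⟩
  have h2 : GrammarDense I ↔ ∃ (K : Type) (_ : Field K) (_ : NumberField K) (_ : Algebra k K)
      (A : Type) (_ : Finite A) (r : ℕ) (M : Matrix (Fin (n + 1)) (Fin r) K)
      (ρ : A → Matrix.GeneralLinearGroup (Fin r) K) (v : Fin r → K) (g : ContextFreeGrammar A),
      ∀ (d : ℕ) (F : MvPolynomial (Fin (n + 1)) k),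
        F.IsHomogeneous d → (F ∈ I ↔ ∀ w ∈ g.language, aeval (affVec M ρ v w) F = 0) := by
    constructor
    · rintro ⟨K, i1, i2, i3, A, i4, r, M, ρ, v, g, h⟩
      refine ⟨K, i1, i2, i3, A, i4, r, M, ρ, v, g, fun d F hF => (h d F hF).trans ?_⟩
      exact ⟨fun h w hw => h _ ⟨w, hw, rfl⟩, by rintro h _ ⟨w, hw, rfl⟩; exact h w hw⟩
    · rintro ⟨K, i1, i2, i3, A, i4, r, M, ρ, v, g, h⟩
      refine ⟨K, i1, i2, i3, A, i4, r, M, ρ, v, g, fun d F hF => (h d F hF).trans ?_⟩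
      exact ⟨by rintro h _ ⟨w, hw, rfl⟩; exact h w hw, fun h w hw => h _ ⟨w, hw, rfl⟩⟩
  rw [h1, h2]
  exact ⟨h.out 0 1, h.out 0 2⟩

/-- the set `S` has the closure of the union of the images of `N` Laurent polynomial maps -/
def ToricClosure {L ι : Type} [Field L] (S : Set (ι → L)) : Prop :=
  ∃ (N : ℕ) (s : Fin N → ℕ) (P : (j : Fin N) → ι → MvPolynomial (Fin (s j) ⊕ Fin (s j)) L),
    ∀ F : MvPolynomial ι L, (∀ x ∈ S, eval x F = 0) ↔
      ∀ (j : Fin N) (t : Fin (s j) → Lˣ), eval (tor (P j) t) F = 0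

theorem closure' (K : Type) [Field K] [NumberField K] (L : Type) [Field L] [CharZero L]
    [IsAlgClosed L] (φ : K →+* L) (ι A : Type) [Finite A] (r : ℕ) (M : Matrix ι (Fin r) K)
    (ρ : A → Matrix.GeneralLinearGroup (Fin r) K) (v : Fin r → K) (g : ContextFreeGrammar A) :
    ToricClosure ((fun x i => φ (x i)) '' wordVecs M ρ v g.language) := by
  obtain ⟨N, s, P, hP⟩ := (vectors_FU φ M ρ v g).list
  refine ⟨N, s, P, fun F => Iff.trans ?_ (hP F)⟩
  constructor
  · rintro h _ ⟨w, hw, rfl⟩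
    exact h _ ⟨_, ⟨w, hw, rfl⟩, rfl⟩
  · rintro h _ ⟨_, ⟨w, hw, rfl⟩, rfl⟩
    exact h _ ⟨w, hw, rfl⟩

end Pool.Agent.TH138.UD
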