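import Mathlib

set_option autoImplicit false

/-!
# Sets with the closure of the image of a Laurent map
-/

namespace Pool.Agent.TH138.UD

open MvPolynomial

variable {L : Type} [Field L] {κ κ₁ κ₂ : Type}

/-- the same polynomials vanish on the two sets -/
def SameCl (X Y : Set (κ → L)) : Prop :=
  ∀ F : MvPolynomial κ L, (∀ x ∈ X, eval x F = 0) ↔ ∀ y ∈ Y, eval y F = 0

theorem SameCl.refl (X : Set (κ → L)) : SameCl X X := fun _ => Iff.rfl

theorem SameCl.symm {X Y : Set (κ → L)} (h : SameCl X Y) : SameCl Y X := fun F => (h F).symm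

theorem SameCl.trans {X Y Z : Set (κ → L)} (h : SameCl X Y) (h' : SameCl Y Z) : SameCl X Z :=
  fun F => (h F).trans (h' F)

/-- the values of `Φ` on pairs -/
def im₂ (Φ : κ → MvPolynomial (κ₁ ⊕ κ₂) L) (X : Set (κ₁ → L)) (Y : Set (κ₂ → L)) :
    Set (κ → L) :=
  {z | ∃ x ∈ X, ∃ y ∈ Y, z = fun i => eval (Sum.elim x y) (Φ i)}

theorem eval_bind {κ κ' : Type} (x : κ' → L) (Φ : κ → MvPolynomial κ' L)
    (F : MvPolynomial κ L) : eval x (bind₁ Φ F) = eval (fun i => eval x (Φ i)) F := by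
  rw [eval, eval₂Hom_bind₁]
  rfl

theorem im₂_congr (Φ : κ → MvPolynomial (κ₁ ⊕ κ₂) L) {X X' : Set (κ₁ → L)}
    {Y Y' : Set (κ₂ → L)} (h : SameCl X X') (h' : SameCl Y Y') :
    SameCl (im₂ Φ X Y) (im₂ Φ X' Y') := by
  intro F
  have h1 : ∀ (X : Set (κ₁ → L)) (Y : Set (κ₂ → L)), (∀ z ∈ im₂ Φ X Y, eval z F = 0) ↔
      ∀ x ∈ X, ∀ y ∈ Y, eval (Sum.elim x y) (bind₁ Φ F) = 0 := by
    intro X Y
    constructor
    · intro h x hx y hy
      rw [eval_bind]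
      exact h _ ⟨x, hx, y, hy, rfl⟩
    · rintro h _ ⟨x, hx, y, hy, rfl⟩
      rw [← eval_bind]
      exact h x hx y hy
  have h2 : ∀ (H : MvPolynomial (κ₁ ⊕ κ₂) L) (x : κ₁ → L) (y : κ₂ → L),
      eval (Sum.elim x y) H = eval x (bind₁ (Sum.elim MvPolynomial.X (fun j => C (y j))) H) := by
    intro H x y
    rw [eval_bind]
    congr 2
    funext s
    cases s <;> simp
  have h3 : ∀ (H : MvPolynomial (κ₁ ⊕ κ₂) L) (x : κ₁ → L) (y : κ₂ → L),
      eval (Sum.elim x y) H = eval y (bind₁ (Sum.elim (fun j => C (x j)) MvPolynomial.X) H) := by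
    intro H x y
    rw [eval_bind]
    congr 2
    funext s
    cases s <;> simp
  rw [h1, h1]
  have h4 : (∀ x ∈ X, ∀ y ∈ Y, eval (Sum.elim x y) (bind₁ Φ F) = 0) ↔
      ∀ x ∈ X, ∀ y ∈ Y', eval (Sum.elim x y) (bind₁ Φ F) = 0 := by
    refine forall_congr' fun x => forall_congr' fun _ => ?_
    simp only [h3 _ x]
    exact h' _
  have h5 : (∀ x ∈ X, ∀ y ∈ Y', eval (Sum.elim x y) (bind₁ Φ F) = 0) ↔
      ∀ x ∈ X', ∀ y ∈ Y', eval (Sum.elim x y) (bind₁ Φ F) = 0 := by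
    constructor
    · intro h5 x hx y hy
      rw [h2]
      refine (h _).1 (fun x hx => ?_) x hx
      rw [← h2]
      exact h5 x hx y hy
    · intro h5 x hx y hy
      rw [h2]
      refine (h _).2 (fun x hx => ?_) x hx
      rw [← h2]
      exact h5 x hx y hy
  exact h4.trans h5

/-- the value of the Laurent polynomials `P i`, written with variables and inverse variables -/
noncomputable def tor {σ : Type} (P : κ → MvPolynomial (σ ⊕ σ) L) (t : σ → Lˣ) : κ → L :=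
  fun i => eval (Sum.elim (fun j => ((t j : Lˣ) : L)) (fun j => (((t j)⁻¹ : Lˣ) : L))) (P i)

/-- `X` has the closure of the image of a Laurent map -/
def Uni (X : Set (κ → L)) : Prop :=
  ∃ (σ : Type) (_ : Finite σ) (P : κ → MvPolynomial (σ ⊕ σ) L), SameCl X (Set.range (tor P))

theorem Uni.congr {X Y : Set (κ → L)} (h : SameCl X Y) (hY : Uni Y) : Uni X := by
  obtain ⟨σ, hσ, P, hP⟩ := hY
  exact ⟨σ, hσ, P, h.trans hP⟩

theorem Uni.singleton (x : κ → L) : Uni {x} := by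
  refine ⟨Empty, inferInstance, fun i => C (x i), fun F => ?_⟩
  constructor
  · rintro h _ ⟨t, rfl⟩
    have : tor (fun i => C (x i)) t = x := by
      funext i
      simp [tor]
    rw [this]
    exact h x rfl
  · intro h y hy
    rw [Set.mem_singleton_iff] at hy
    have : tor (fun i => C (x i)) (fun e : Empty => e.elim) = x := by
      funext i
      simp [tor]
    have h1 := h _ ⟨fun e : Empty => e.elim, rfl⟩
    rw [this] at h1
    rw [hy]
    exact h1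

theorem Uni.im₂ (Φ : κ → MvPolynomial (κ₁ ⊕ κ₂) L) {X : Set (κ₁ → L)} {Y : Set (κ₂ → L)}
    (hX : Uni X) (hY : Uni Y) : Uni (im₂ Φ X Y) := by
  obtain ⟨σ, hσ, P, hP⟩ := hX
  obtain ⟨τ, hτ, Q, hQ⟩ := hY
  let R : κ₁ ⊕ κ₂ → MvPolynomial ((σ ⊕ τ) ⊕ (σ ⊕ τ)) L :=
    Sum.elim (fun a => rename (Sum.map Sum.inl Sum.inl) (P a))
      (fun b => rename (Sum.map Sum.inr Sum.inr) (Q b))
  refine ⟨σ ⊕ τ, inferInstance, fun i => bind₁ R (Φ i), ?_⟩
  refine (im₂_congr Φ hP hQ).trans ?_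
  have h1 : ∀ (t : σ → Lˣ) (u : τ → Lˣ), tor (fun i => bind₁ R (Φ i)) (Sum.elim t u) =
      fun i => eval (Sum.elim (tor P t) (tor Q u)) (Φ i) := by
    intro t u
    funext i
    unfold tor
    rw [eval_bind]
    congr 2
    funext s
    rcases s with a | b
    · simp only [R, Sum.elim_inl]
      rw [eval_rename]
      congr 2
      funext s
      cases s <;> simp
    · simp only [R, Sum.elim_inr]
      rw [eval_rename]
      congr 2
      funext s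
      cases s <;> simp
  have h2 : Pool.Agent.TH138.UD.im₂ Φ (Set.range (tor P)) (Set.range (tor Q)) =
      Set.range (tor fun i => bind₁ R (Φ i)) := by
    ext z
    constructor
    · rintro ⟨_, ⟨t, rfl⟩, _, ⟨u, rfl⟩, rfl⟩
      exact ⟨Sum.elim t u, h1 t u⟩
    · rintro ⟨t, rfl⟩
      refine ⟨_, ⟨fun a => t (Sum.inl a), rfl⟩, _, ⟨fun b => t (Sum.inr b), rfl⟩, ?_⟩
      rw [← h1]
      congr 1
      funext s
      cases s <;> rfl
  rw [h2]
  exact SameCl.refl _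

/-- clearing denominators -/
theorem clear {σ : Type} [Fintype σ] (Q : MvPolynomial (σ ⊕ σ) L) :
    ∃ (N : ℕ) (G : MvPolynomial σ L), ∀ t : σ → Lˣ,
      eval (fun j => ((t j : Lˣ) : L)) G = (∏ j, ((t j : Lˣ) : L)) ^ N *
        eval (Sum.elim (fun j => ((t j : Lˣ) : L)) (fun j => (((t j)⁻¹ : Lˣ) : L))) Q := by
  classical
  induction Q using MvPolynomial.induction_on with
  | C a => exact ⟨0, C a, fun t => by simp⟩
  | add p q hp hq =>
    obtain ⟨N, G, h⟩ := hp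
    obtain ⟨N', G', h'⟩ := hq
    refine ⟨N + N', G * (∏ j, X j) ^ N' + G' * (∏ j, X j) ^ N, fun t => ?_⟩
    rw [map_add, map_mul, map_mul, map_pow, map_pow, map_prod, h t, h' t, map_add]
    simp only [eval_X]
    ring
  | mul_X p s hp =>
    obtain ⟨N, G, h⟩ := hp
    rcases s with j | j
    · refine ⟨N, G * X j, fun t => ?_⟩
      rw [map_mul, h t, map_mul, eval_X, eval_X, Sum.elim_inl]
      ring
    · refine ⟨N + 1, G * ∏ i ∈ Finset.univ.erase j, X i, fun t => ?_⟩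
      rw [map_mul, h t, map_mul, eval_X, Sum.elim_inr, map_prod]
      simp only [eval_X]
      have h1 : (∏ i, ((t i : Lˣ) : L)) = (t j : L) * ∏ i ∈ Finset.univ.erase j, ((t i : Lˣ) : L) :=
        (Finset.mul_prod_erase _ _ (Finset.mem_univ j)).symm
      have h2 : ((t j : Lˣ) : L) * (((t j)⁻¹ : Lˣ) : L) = 1 := Units.mul_inv _
      rw [pow_succ]
      conv_rhs => rw [h1]
      rw [h1]
      linear_combination (-((t j : L) * ∏ i ∈ Finset.univ.erase j, ((t i : Lˣ) : L)) ^ N *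
        (∏ i ∈ Finset.univ.erase j, ((t i : Lˣ) : L)) *
        eval (Sum.elim (fun j => ((t j : Lˣ) : L)) (fun j => (((t j)⁻¹ : Lˣ) : L))) p) * h2

/-- irreducibility -/
theorem Uni.irr [Infinite L] {X : Set (κ → L)} (hX : Uni X) (F G : MvPolynomial κ L)
    (h : ∀ x ∈ X, eval x F = 0 ∨ eval x G = 0) :
    (∀ x ∈ X, eval x F = 0) ∨ ∀ x ∈ X, eval x G = 0 := by
  classical
  obtain ⟨σ, hσ, P, hP⟩ := hX
  have : Fintype σ := Fintype.ofFinite σ
  have h1 : ∀ x ∈ X, eval x (F * G) = 0 := by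
    intro x hx
    rw [map_mul, mul_eq_zero]
    exact h x hx
  have h2 := (hP _).1 h1
  have hev : ∀ (H : MvPolynomial κ L) (t : σ → Lˣ), eval (tor P t) H =
      eval (Sum.elim (fun j => ((t j : Lˣ) : L)) (fun j => (((t j)⁻¹ : Lˣ) : L))) (bind₁ P H) := by
    intro H t
    rw [eval_bind]
    rfl
  obtain ⟨N, F', hF'⟩ := clear (bind₁ P F)
  obtain ⟨N', G', hG'⟩ := clear (bind₁ P G)
  have h3 : F' * G' * ∏ j, MvPolynomial.X j = 0 := by
    refine MvPolynomial.funext fun u => ?_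
    rw [map_zero]
    by_cases hu : ∀ j, u j ≠ 0
    · let t : σ → Lˣ := fun j => Units.mk0 (u j) (hu j)
      have h4 := h2 _ ⟨t, rfl⟩
      rw [map_mul, hev, hev] at h4
      have h5 : eval u F' = _ := hF' t
      have h6 : eval u G' = _ := hG' t
      rw [map_mul, map_mul, h5, h6]
      linear_combination ((∏ j, ((t j : Lˣ) : L)) ^ N * (∏ j, ((t j : Lˣ) : L)) ^ N' *
        eval u (∏ j, MvPolynomial.X j)) * h4
    · push Not at hu
      obtain ⟨j, hj⟩ := hu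
      rw [map_mul, map_prod]
      have : ∏ i, eval u (MvPolynomial.X i) = 0 :=
        Finset.prod_eq_zero (Finset.mem_univ j) (by rw [eval_X, hj])
      rw [this, mul_zero]
  have h7 : (∏ j : σ, (MvPolynomial.X j : MvPolynomial σ L)) ≠ 0 :=
    Finset.prod_ne_zero_iff.2 fun j _ => MvPolynomial.X_ne_zero j
  have hne : ∀ t : σ → Lˣ, (∏ j, ((t j : Lˣ) : L)) ≠ 0 := fun t =>
    Finset.prod_ne_zero_iff.2 fun j _ => (t j).ne_zero
  rcases mul_eq_zero.1 ((mul_eq_zero.1 h3).resolve_right h7) with h8 | h8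
  · left
    rw [hP]
    rintro _ ⟨t, rfl⟩
    rw [hev]
    have h9 := hF' t
    rw [h8, map_zero] at h9
    exact (mul_eq_zero.1 h9.symm).resolve_left (pow_ne_zero _ (hne t))
  · right
    rw [hP]
    rintro _ ⟨t, rfl⟩
    rw [hev]
    have h9 := hG' t
    rw [h8, map_zero] at h9
    exact (mul_eq_zero.1 h9.symm).resolve_left (pow_ne_zero _ (hne t))

/-- finite unions -/
def FU (X : Set (κ → L)) : Prop :=
  ∃ 𝒵 : Set (Set (κ → L)), 𝒵.Finite ∧ (∀ Z ∈ 𝒵, Uni Z) ∧ SameCl X (⋃₀ 𝒵)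

theorem FU.of_uni {X : Set (κ → L)} (h : Uni X) : FU X :=
  ⟨{X}, Set.finite_singleton _, by rintro _ rfl; exact h, by
    rw [Set.sUnion_singleton]; exact SameCl.refl _⟩

theorem FU.congr {X Y : Set (κ → L)} (h : SameCl X Y) (hY : FU Y) : FU X := by
  obtain ⟨𝒵, h1, h2, h3⟩ := hY
  exact ⟨𝒵, h1, h2, h.trans h3⟩

theorem SameCl.iUnion {J : Type} {X Y : J → Set (κ → L)} (h : ∀ j, SameCl (X j) (Y j)) :
    SameCl (⋃ j, X j) (⋃ j, Y j) := by
  intro F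
  constructor
  · intro h1 y hy
    obtain ⟨j, hj⟩ := Set.mem_iUnion.1 hy
    exact (h j F).1 (fun x hx => h1 x (Set.mem_iUnion.2 ⟨j, hx⟩)) y hj
  · intro h1 y hy
    obtain ⟨j, hj⟩ := Set.mem_iUnion.1 hy
    exact (h j F).2 (fun x hx => h1 x (Set.mem_iUnion.2 ⟨j, hx⟩)) y hj

theorem FU.iUnion {J : Type} [Finite J] {X : J → Set (κ → L)} (h : ∀ j, FU (X j)) :
    FU (⋃ j, X j) := by
  choose 𝒵 h1 h2 h3 using h
  refine ⟨⋃ j, 𝒵 j, Set.finite_iUnion h1, ?_, ?_⟩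
  · intro Z hZ
    obtain ⟨j, hj⟩ := Set.mem_iUnion.1 hZ
    exact h2 j Z hj
  · have : (⋃₀ ⋃ j, 𝒵 j) = ⋃ j, ⋃₀ 𝒵 j := Set.sUnion_iUnion _
    rw [this]
    exact SameCl.iUnion h3

theorem FU.empty : FU (∅ : Set (κ → L)) :=
  ⟨∅, Set.finite_empty, by simp, by rw [Set.sUnion_empty]; exact SameCl.refl _⟩

theorem FU.im₂ (Φ : κ → MvPolynomial (κ₁ ⊕ κ₂) L) {X : Set (κ₁ → L)} {Y : Set (κ₂ → L)}
    (hX : FU X) (hY : FU Y) : FU (im₂ Φ X Y) := by
  obtain ⟨𝒵, h1, h2, h3⟩ := hX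
  obtain ⟨𝒲, h1', h2', h3'⟩ := hY
  refine FU.congr (im₂_congr Φ h3 h3') ⟨Set.image2 (Pool.Agent.TH138.UD.im₂ Φ) 𝒵 𝒲,
    h1.image2 _ h1', ?_, ?_⟩
  · rintro _ ⟨Z, hZ, W, hW, rfl⟩
    exact (h2 Z hZ).im₂ Φ (h2' W hW)
  · have : Pool.Agent.TH138.UD.im₂ Φ (⋃₀ 𝒵) (⋃₀ 𝒲) =
        ⋃₀ Set.image2 (Pool.Agent.TH138.UD.im₂ Φ) 𝒵 𝒲 := by
      ext z
      constructor
      · rintro ⟨x, ⟨Z, hZ, hx⟩, y, ⟨W, hW, hy⟩, rfl⟩
        exact ⟨_, ⟨Z, hZ, W, hW, rfl⟩, x, hx, y, hy, rfl⟩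
      · rintro ⟨_, ⟨Z, hZ, W, hW, rfl⟩, x, hx, y, hy, rfl⟩
        exact ⟨x, ⟨Z, hZ, hx⟩, y, ⟨W, hW, hy⟩, rfl⟩
    rw [this]
    exact SameCl.refl _

end Pool.Agent.TH138.UD
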