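import Pool.Agent.TH138.UD.U1
import Pool.Agent.TH138.LG.Sand

set_option autoImplicit false

/-!
# The orbit of a linear map has the closure of the image of a Laurent map
-/

namespace Pool.Agent.TH138.UD

open Pool.Agent.TH717.GO

theorem one_param {L ι : Type} [Field L] [CharZero L] [IsAlgClosed L] {s : ℕ}
    (f : Module.End L (Fin s → L))
    (U : Subgroup Lˣ) (hU : ∀ u ∈ U, ∀ m : ℕ, 0 < m → u ^ m = 1 → u = 1)
    (hfU : ∀ μ : L, f.HasEigenvalue μ → ∃ u ∈ U, (u : L) = μ)
    (ℓ : (Fin s → L) →ₗ[L] (ι → L)) (x : Fin s → L) :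
    Uni (Set.range fun m : ℕ => ℓ ((f ^ m) x)) ∧
      ∀ F : MvPolynomial ι L, (∀ m : ℕ, 0 < m → MvPolynomial.eval (ℓ ((f ^ m) x)) F = 0) →
        ∀ m : ℕ, MvPolynomial.eval (ℓ ((f ^ m) x)) F = 0 := by
  classical
  let E : Set Lˣ := {u | f.HasEigenvalue (u : L)}
  have hEfin : E.Finite := by
    have h1 : (Units.val '' E : Set L).Finite := by
      by_contra hinf
      obtain ⟨T, hT, hTc⟩ := Set.Infinite.exists_subset_card_eq hinf (s + 1)
      have h1 := card_le_of_eig f T (by
        intro μ hμ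
        obtain ⟨u, hu, rfl⟩ := hT hμ
        exact hu)
      omega
    exact Set.Finite.of_finite_image h1 (fun a _ b _ h => Units.ext h)
  let Λ : Subgroup Lˣ := Subgroup.closure E
  have hΛU : Λ ≤ U := by
    rw [Subgroup.closure_le]
    intro u hu
    obtain ⟨u', hu', h⟩ := hfU (u : L) hu
    rwa [← Units.ext h]
  have hΛ : ∀ μ : L, f.HasEigenvalue μ → ∃ ν : Λ, ((ν : Lˣ) : L) = μ := by
    intro μ hμ
    obtain ⟨u, hu, rfl⟩ := hfU μ hμ
    exact ⟨⟨u, Subgroup.subset_closure hμ⟩, rfl⟩
  have hfg : Group.FG Λ := by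
    rw [Group.fg_iff_subgroup_fg]
    exact ⟨hEfin.toFinset, by rw [Set.Finite.coe_toFinset]⟩
  have htf : ∀ (g : Λ) (n : ℕ), 0 < n → g ^ n = 1 → g = 1 := fun g m hm h => by
    have h1 := hU g (hΛU g.2) m hm (by
      have := congrArg (Subtype.val : Λ → Lˣ) h
      simpa using this)
    exact Subtype.ext h1
  obtain ⟨S0, -, hS2⟩ := seq_rep f Λ hΛ
  have hrep : ∀ i : ι, ∃ a : Λ → Polynomial L,
      ∀ m : ℕ, ℓ ((f ^ m) x) i = ∑ μ ∈ S0, (a μ).eval (m : L) * ((μ : Lˣ) : L) ^ m := by
    intro i
    obtain ⟨a, -, hae⟩ := hS2 ((LinearMap.proj i).comp ℓ) x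
    exact ⟨a, hae⟩
  choose a hae using hrep
  -- a basis
  have h1 : IsAddTorsionFree (Additive Λ) := by
    constructor
    intro n hn a b hab
    have h2 : (Additive.toMul a / Additive.toMul b) ^ n = 1 := by
      rw [div_pow, div_eq_one]
      exact hab
    have h3 := htf _ n (Nat.pos_of_ne_zero hn) h2
    exact Additive.toMul.injective (div_eq_one.1 h3)
  have h4 : Module.Finite ℤ (Additive Λ) := by
    rw [Module.Finite.iff_addGroup_fg]
    exact GroupFG.iff_add_fg.1 hfg
  have h5 : Module.Free ℤ (Additive Λ) := Module.free_of_finite_type_torsion_free'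
  let J := Module.Free.ChooseBasisIndex ℤ (Additive Λ)
  let b : Module.Basis J ℤ (Additive Λ) := Module.Free.chooseBasis ℤ (Additive Λ)
  let co : Λ → J → ℤ := fun g i => b.repr (Additive.ofMul g) i
  have hco1 : ∀ j, co 1 j = 0 := fun j => by simp [co]
  have hcomul : ∀ g g' j, co (g * g') j = co g j + co g' j := fun g g' j => by simp [co]
  have hcob : ∀ g : Λ, g = ∏ j, (Additive.toMul (b j)) ^ (co g j) := by
    intro g
    apply Additive.ofMul.injective
    rw [ofMul_prod]
    conv_lhs => rw [← b.sum_repr (Additive.ofMul g)]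
    rfl
  let σ := Option J
  let mono : Λ → MvPolynomial (σ ⊕ σ) L := fun μ => ∏ j : J,
    if 0 ≤ co μ j then (MvPolynomial.X (Sum.inl (some j))) ^ (co μ j).toNat
      else (MvPolynomial.X (Sum.inr (some j))) ^ (-(co μ j)).toNat
  let χ : (σ → Lˣ) → (Λ →* Lˣ) := fun t =>
    { toFun := fun μ => ∏ j : J, (t (some j)) ^ (co μ j)
      map_one' := by simp [hco1]
      map_mul' := fun μ ν => by
        rw [← Finset.prod_mul_distrib]
        exact Finset.prod_congr rfl fun j _ => by rw [hcomul, zpow_add] }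
  have hmono : ∀ (t : σ → Lˣ) (μ : Λ), MvPolynomial.eval
      (Sum.elim (fun j => ((t j : Lˣ) : L)) (fun j => (((t j)⁻¹ : Lˣ) : L))) (mono μ) =
      ((χ t μ : Lˣ) : L) := by
    intro t μ
    show MvPolynomial.eval _ (∏ j : J, _) = ((∏ j : J, (t (some j)) ^ (co μ j) : Lˣ) : L)
    rw [map_prod, Units.coe_prod]
    refine Finset.prod_congr rfl fun j _ => ?_
    split_ifs with h
    · rw [map_pow, MvPolynomial.eval_X, Sum.elim_inl]
      conv_rhs => rw [← Int.toNat_of_nonneg h]
      rw [zpow_natCast, Units.val_pow_eq_pow_val]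
    · push Not at h
      rw [map_pow, MvPolynomial.eval_X, Sum.elim_inr]
      have h6 : co μ j = -(((-(co μ j)).toNat : ℕ) : ℤ) := by
        rw [Int.toNat_of_nonneg (by omega)]
        ring
      conv_rhs => rw [h6]
      rw [zpow_neg, zpow_natCast, ← inv_pow, Units.val_pow_eq_pow_val]
  let θ : (σ → Lˣ) → (EP Λ →+* L) := fun t =>
    MonoidAlgebra.liftNCRingHom (Polynomial.evalRingHom ((t none : Lˣ) : L))
      ((Units.coeHom L).comp (χ t)) (fun x y => Commute.all _ _)
  have hθ : ∀ t μ (p : Polynomial L), θ t (MonoidAlgebra.single μ p) =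
      p.eval ((t none : Lˣ) : L) * ((χ t μ : Lˣ) : L) := by
    intro t μ p
    show MonoidAlgebra.liftNCRingHom _ _ _ _ = _
    rw [MonoidAlgebra.liftNCRingHom_single]
    rfl
  let z : ι → EP Λ := fun i => mk Λ S0 (a i)
  let P : ι → MvPolynomial (σ ⊕ σ) L := fun i => ∑ μ ∈ S0,
    Polynomial.aeval (MvPolynomial.X (Sum.inl none)) (a i μ) * mono μ
  have hP : ∀ t, tor P t = fun i => θ t (z i) := by
    intro t
    funext i
    show MvPolynomial.eval _ (∑ μ ∈ S0, _) = θ t (∑ μ ∈ S0, _)
    rw [map_sum, map_sum]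
    refine Finset.sum_congr rfl fun μ _ => ?_
    rw [hθ, map_mul, hmono]
    congr 1
    rw [Polynomial.aeval_def, Polynomial.hom_eval₂, MvPolynomial.eval_X, Sum.elim_inl]
    have h7 : (MvPolynomial.eval
        (Sum.elim (fun j => ((t j : Lˣ) : L)) (fun j => (((t j)⁻¹ : Lˣ) : L)))).comp
        (algebraMap L (MvPolynomial (σ ⊕ σ) L)) = RingHom.id L := by
      refine RingHom.ext fun c => ?_
      simp [MvPolynomial.algebraMap_eq]
    rw [h7, Polynomial.eval₂_id]
  let f0 : L →+* EP Λ := (MonoidAlgebra.singleOneRingHom (R := Polynomial L) (M := Λ)).comp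
    Polynomial.C
  have hθF : ∀ t (F : MvPolynomial ι L), θ t (MvPolynomial.eval₂ f0 z F) =
      MvPolynomial.eval (tor P t) F := by
    intro t F
    rw [MvPolynomial.hom_eval₂, hP]
    have h7 : (θ t).comp f0 = RingHom.id L := by
      refine RingHom.ext fun c => ?_
      show θ t (MonoidAlgebra.single 1 (Polynomial.C c)) = c
      rw [hθ, Polynomial.eval_C, map_one, Units.val_one, mul_one]
    rw [h7]
    rfl
  let evm : ℕ → (EP Λ →+* L) := fun m => (Pi.evalRingHom (fun _ : ℕ => L) m).comp (ev Λ)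
  have hevF : ∀ m (F : MvPolynomial ι L), evm m (MvPolynomial.eval₂ f0 z F) =
      MvPolynomial.eval (ℓ ((f ^ m) x)) F := by
    intro m F
    rw [MvPolynomial.hom_eval₂]
    have h7 : (evm m).comp f0 = RingHom.id L := by
      refine RingHom.ext fun c => ?_
      show ev Λ (MonoidAlgebra.single 1 (Polynomial.C c)) m = c
      rw [ev_single, Polynomial.eval_C]
      simp
    have h8 : (fun i => evm m (z i)) = ℓ ((f ^ m) x) := by
      funext i
      show ev Λ (mk Λ S0 (a i)) m = _
      rw [ev_mk, hae i m]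
    rw [h7, h8]
    rfl
  have hback : ∀ F : MvPolynomial ι L,
      (∀ m : ℕ, 0 < m → evm m (MvPolynomial.eval₂ f0 z F) = 0) →
        ∀ m : ℕ, MvPolynomial.eval (ℓ ((f ^ m) x)) F = 0 := by
    intro F h7 m
    have h10 : MonoidAlgebra.single (1 : Λ) (Polynomial.X : Polynomial L) *
        MvPolynomial.eval₂ f0 z F = 0 := by
      apply ev_injective Λ
      rw [map_zero]
      funext m
      show evm m (MonoidAlgebra.single (1 : Λ) (Polynomial.X : Polynomial L) *
        MvPolynomial.eval₂ f0 z F) = 0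
      rw [map_mul]
      rcases Nat.eq_zero_or_pos m with rfl | hm
      · have : evm 0 (MonoidAlgebra.single (1 : Λ) (Polynomial.X : Polynomial L)) = 0 := by
          show ev Λ (MonoidAlgebra.single 1 Polynomial.X) 0 = 0
          rw [ev_single]
          simp
        rw [this, zero_mul]
      · rw [h7 m hm, mul_zero]
    have h11 : MvPolynomial.eval₂ f0 z F = 0 := by
      rw [← MonoidAlgebra.coeff_eq_zero]
      ext1 μ
      have h12 := congrArg (fun y : EP Λ => y.coeff μ) h10
      simp only [MonoidAlgebra.coeff_single_one_mul] at h12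
      have h13 : (Polynomial.X : Polynomial L) * (MvPolynomial.eval₂ f0 z F).coeff μ = 0 := by
        rw [h12]; simp
      exact (mul_eq_zero.1 h13).resolve_left Polynomial.X_ne_zero
    rw [← hevF, h11, map_zero]
  refine ⟨⟨σ, inferInstance, P, fun F => ?_⟩, fun F h => hback F fun m hm => by
    rw [hevF]; exact h m hm⟩
  constructor
  · rintro h _ ⟨t, rfl⟩
    have h7 : MvPolynomial.eval₂ f0 z F = 0 := by
      apply ev_injective Λ
      rw [map_zero]
      funext m
      exact (hevF m F).trans (h _ ⟨m, rfl⟩)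
    rw [← hθF, h7, map_zero]
  · rintro h _ ⟨m, rfl⟩
    have h7 : ∀ m : ℕ, 0 < m → evm m (MvPolynomial.eval₂ f0 z F) = 0 := by
      intro m hm
      let t : σ → Lˣ := fun o => match o with
        | none => Units.mk0 (m : L) (Nat.cast_ne_zero.2 hm.ne')
        | some j => ((Additive.toMul (b j) : Λ) : Lˣ) ^ m
      have h8 : θ t = evm m := by
        refine MonoidAlgebra.ringHom_ext (fun p => ?_) (fun μ => ?_)
        · rw [hθ]
          show _ = ev Λ (MonoidAlgebra.single 1 p) m
          rw [ev_single, map_one]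
          simp [t]
        · rw [hθ]
          show _ = ev Λ (MonoidAlgebra.single μ 1) m
          rw [ev_single, Polynomial.eval_one, Polynomial.eval_one]
          congr 1
          have h9 : χ t μ = ((μ : Λ) : Lˣ) ^ m := by
            show ∏ j : J, (((Additive.toMul (b j) : Λ) : Lˣ) ^ m) ^ (co μ j) = _
            conv_rhs => rw [hcob μ]
            rw [Subgroup.val_finset_prod, ← Finset.prod_pow]
            refine Finset.prod_congr rfl fun j _ => ?_
            rw [Subgroup.coe_zpow, ← zpow_natCast, ← zpow_natCast, ← zpow_mul, ← zpow_mul,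
              mul_comm]
          rw [h9, Units.val_pow_eq_pow_val]
      rw [← h8, hθF]
      exact h _ ⟨t, rfl⟩
    exact hback F h7 m

end Pool.Agent.TH138.UD
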