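import Pool.Agent.TH138.UD.U2

set_option autoImplicit false

/-!
# Monoids of matrices
-/

namespace Pool.Agent.TH138.UD

open MvPolynomial Pool.Agent.TH717.GO Pool.Agent.TH138.LG

/-- the vanishing ideal -/
def VI {L κ : Type} [Field L] (X : Set (κ → L)) : Ideal (MvPolynomial κ L) where
  carrier := {F | ∀ x ∈ X, eval x F = 0}
  zero_mem' := fun x _ => map_zero _
  add_mem' := fun {F G} hF hG x hx => by
    show eval x (F + G) = 0
    rw [map_add, hF x hx, hG x hx, add_zero]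
  smul_mem' := fun c F hF x hx => by
    show eval x (c * F) = 0
    rw [map_mul, hF x hx, mul_zero]

theorem VI_prime {L κ : Type} [Field L] [Infinite L] {X : Set (κ → L)} (hX : Uni X)
    (hne : X.Nonempty) : (VI X).IsPrime := by
  refine ⟨?_, ?_⟩
  · intro h
    have h1 : (1 : MvPolynomial κ L) ∈ VI X := by rw [h]; trivial
    obtain ⟨x, hx⟩ := hne
    have := h1 x hx
    rw [map_one] at this
    exact one_ne_zero this
  · intro F G h
    refine hX.irr F G fun x hx => ?_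
    have := h x hx
    rw [map_mul] at this
    exact mul_eq_zero.1 this

variable {K L : Type} [Field K] [Field L] {m : ℕ}

/-- the entries of a matrix over `K`, in `L` -/
def mv (φ : K →+* L) (s : Matrix (Fin m) (Fin m) K) : Fin m × Fin m → L :=
  fun q => φ (s q.1 q.2)

/-- the entries of the product -/
noncomputable def mulΦ (L : Type) [Field L] (m : ℕ) : Fin m × Fin m →
    MvPolynomial ((Fin m × Fin m) ⊕ (Fin m × Fin m)) L :=
  fun q => ∑ b, X (Sum.inl (q.1, b)) * X (Sum.inr (b, q.2))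

theorem mv_mul (φ : K →+* L) (s t : Matrix (Fin m) (Fin m) K) :
    mv φ (s * t) = fun i => eval (Sum.elim (mv φ s) (mv φ t)) (mulΦ L m i) := by
  funext q
  unfold mv mulΦ
  rw [Matrix.mul_apply, map_sum, map_sum]
  refine Finset.sum_congr rfl fun b _ => ?_
  rw [map_mul, map_mul, eval_X, eval_X]
  rfl

theorem mv_image_mul (φ : K →+* L) (S T : Set (Matrix (Fin m) (Fin m) K)) :
    mv φ '' {x | ∃ s ∈ S, ∃ t ∈ T, x = s * t} = im₂ (mulΦ L m) (mv φ '' S) (mv φ '' T) := by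
  ext z
  constructor
  · rintro ⟨_, ⟨s, hs, t, ht, rfl⟩, rfl⟩
    exact ⟨_, ⟨s, hs, rfl⟩, _, ⟨t, ht, rfl⟩, mv_mul φ s t⟩
  · rintro ⟨_, ⟨s, hs, rfl⟩, _, ⟨t, ht, rfl⟩, rfl⟩
    exact ⟨s * t, ⟨s, hs, t, ht, rfl⟩, mv_mul φ s t⟩

/-- matrices congruent to `1` modulo `p`, with their inverse -/
def Good (p : ℕ) (s : Matrix (Fin m) (Fin m) K) : Prop :=
  ∃ s' B B' : Matrix (Fin m) (Fin m) K, s' * s = 1 ∧ (∀ i j, PInt p (B i j)) ∧
    (∀ i j, PInt p (B' i j)) ∧ s = 1 + (p : K) • B ∧ s' = 1 + (p : K) • B'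

theorem powers_two [CharZero L] [IsAlgClosed L] (φ : K →+* L) {p : ℕ} (hp : p.Prime)
    (hp3 : 3 ≤ p) {s : Matrix (Fin m) (Fin m) K} (hs : Good p s)
    (N : Matrix (Fin m) (Fin m) K) :
    Uni (mv φ '' {x | ∃ i : ℕ, x = N * s ^ i}) ∧
      ∀ F : MvPolynomial (Fin m × Fin m) L,
        (∀ i : ℕ, 0 < i → eval (mv φ (N * s ^ i)) F = 0) → eval (mv φ N) F = 0 := by
  obtain ⟨s', B, B', h1, hB, hB', e, e'⟩ := hs
  have hmap : ∀ C : Matrix (Fin m) (Fin m) K, ((1 : Matrix (Fin m) (Fin m) K) + (p : K) • C).map φ =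
      1 + (p : L) • C.map φ := by
    intro C
    have h1 : ((1 : Matrix (Fin m) (Fin m) K) + (p : K) • C).map φ =
        φ.mapMatrix (1 + (p : K) • C) := rfl
    rw [h1, map_add, map_one]
    congr 1
    ext a b
    simp
  have hone : (1 : Matrix (Fin m) (Fin m) L) = 1 + (p : L) • (0 : Matrix (Fin m) (Fin m) L) := by
    rw [smul_zero, add_zero]
  have hKK : Kr (1 : Matrix (Fin m) (Fin m) L) (s'.map φ) * Kr 1 (s.map φ) = 1 := by
    have h2 : s * s' = 1 := by
      rw [mul_eq_one_comm]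
      exact h1
    rw [Kr_mul, ← Matrix.map_mul, h2, Matrix.map_one φ (map_zero φ) (map_one φ), one_mul, Kr_one]
  have h0p : ∀ i j, PInt p ((0 : Matrix (Fin m) (Fin m) L) i j) := fun i j => by
    simpa using PInt.natCast (L := L) hp 0
  have heig := fun μ hμ => eig_mem_UU (L := L) hp (Kr (1 : Matrix (Fin m) (Fin m) L) (s.map φ))
    (Kr 1 (s'.map φ)) (KB (p : L) 0 (B.map φ)) (KB (p : L) 0 (B'.map φ))
    hKK (by rw [e, hmap]; nth_rewrite 1 [hone]; rw [Kr_add])
    (by rw [e', hmap]; nth_rewrite 1 [hone]; rw [Kr_add])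
    (KB_pint hp h0p (fun i j => (hB i j).map φ))
    (KB_pint hp h0p (fun i j => (hB' i j).map φ)) μ hμ
  let ℓ : (Fin (m * m) → L) →ₗ[L] (Fin m × Fin m → L) :=
    { toFun := fun y q => y (finProdFinEquiv q)
      map_add' := fun _ _ => rfl
      map_smul' := fun _ _ => rfl }
  have hpow : ∀ C : Matrix (Fin m) (Fin m) K, ∀ i : ℕ, (C.map φ) ^ i = (C ^ i).map φ := by
    intro C i
    have h1 : C.map φ = φ.mapMatrix C := rfl
    rw [h1, ← map_pow]
    rfl
  have hseq : ∀ i : ℕ, ℓ (((Matrix.toLinAlgEquiv' (Kr (1 : Matrix (Fin m) (Fin m) L)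
      (s.map φ))) ^ i) (vec (N.map φ))) = mv φ (N * s ^ i) := by
    intro i
    rw [← map_pow, Matrix.toLinAlgEquiv'_apply, Kr_pow, one_pow, one_mul, hpow, ← Matrix.map_mul]
    funext q
    show vec ((N * s ^ i).map φ) (finProdFinEquiv q) = φ ((N * s ^ i) q.1 q.2)
    simp [vec]
  obtain ⟨h2, h3⟩ := one_param (Matrix.toLinAlgEquiv' (Kr (1 : Matrix (Fin m) (Fin m) L)
    (s.map φ))) (UU hp L) (UU_torsionFree hp hp3) heig ℓ (vec (N.map φ))
  constructor
  · have h4 : mv φ '' {x | ∃ i : ℕ, x = N * s ^ i} = Set.range fun i : ℕ =>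
        ℓ (((Matrix.toLinAlgEquiv' (Kr (1 : Matrix (Fin m) (Fin m) L) (s.map φ))) ^ i)
          (vec (N.map φ))) := by
      ext z
      constructor
      · rintro ⟨_, ⟨i, rfl⟩, rfl⟩
        exact ⟨i, hseq i⟩
      · rintro ⟨i, rfl⟩
        exact ⟨N * s ^ i, ⟨i, rfl⟩, (hseq i).symm⟩
    rw [h4]
    exact h2
  · intro F hF
    have h5 := h3 F (fun i hi => by rw [hseq]; exact hF i hi) 0
    rw [hseq] at h5
    simpa using h5

/-- the products of powers of the members of a list -/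
def fam : List (Matrix (Fin m) (Fin m) K) → Set (Matrix (Fin m) (Fin m) K)
  | [] => {1}
  | s :: l => {x | ∃ y ∈ fam l, ∃ i : ℕ, x = y * s ^ i}

theorem one_mem_fam (l : List (Matrix (Fin m) (Fin m) K)) : (1 : Matrix (Fin m) (Fin m) K) ∈ fam l := by
  induction l with
  | nil => rfl
  | cons s l ih => exact ⟨1, ih, 0, by simp⟩

theorem fam_sub (S : Submonoid (Matrix (Fin m) (Fin m) K)) (l : List (Matrix (Fin m) (Fin m) K))
    (hl : ∀ s ∈ l, s ∈ S) : fam l ⊆ S := by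
  induction l with
  | nil =>
    rintro _ rfl
    exact S.one_mem
  | cons s l ih =>
    rintro _ ⟨y, hy, i, rfl⟩
    exact S.mul_mem (ih (fun s hs => hl s (List.mem_cons_of_mem _ hs)) hy)
      (S.pow_mem (hl s (List.mem_cons_self)) i)

theorem fam_uni [CharZero L] [IsAlgClosed L] (φ : K →+* L) {p : ℕ} (hp : p.Prime)
    (hp3 : 3 ≤ p) (l : List (Matrix (Fin m) (Fin m) K)) (hl : ∀ s ∈ l, Good p s) :
    Uni (mv φ '' fam l) := by
  induction l with
  | nil =>
    have : mv φ '' fam ([] : List (Matrix (Fin m) (Fin m) K)) = {mv φ 1} := Set.image_singleton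
    rw [this]
    exact Uni.singleton _
  | cons s l ih =>
    have h1 := ih (fun s hs => hl s (List.mem_cons_of_mem _ hs))
    have h2 := (powers_two φ hp hp3 (hl s List.mem_cons_self) 1).1
    have h3 : fam (s :: l) = {x | ∃ y ∈ fam l, ∃ t ∈ {x | ∃ i : ℕ, x = 1 * s ^ i}, x = y * t} := by
      ext x
      constructor
      · rintro ⟨y, hy, i, rfl⟩
        exact ⟨y, hy, _, ⟨i, rfl⟩, by rw [one_mul]⟩
      · rintro ⟨y, hy, _, ⟨i, rfl⟩, rfl⟩
        exact ⟨y, hy, i, by rw [one_mul]⟩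
    rw [h3, mv_image_mul]
    exact h1.im₂ _ h2

/-- **A monoid of matrices congruent to `1` has the closure of the image of a Laurent map.** -/
theorem monoid_uni [CharZero L] [IsAlgClosed L] (φ : K →+* L) {p : ℕ} (hp : p.Prime)
    (hp3 : 3 ≤ p) (S : Submonoid (Matrix (Fin m) (Fin m) K)) (hS : ∀ s ∈ S, Good p s) :
    Uni (mv φ '' (S : Set (Matrix (Fin m) (Fin m) K))) := by
  classical
  let D : Set (List (Matrix (Fin m) (Fin m) K)) := {l | ∀ s ∈ l, s ∈ S}
  have hDne : D.Nonempty := ⟨[], by simp [D]⟩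
  have hprime : ∀ l ∈ D, (VI (mv φ '' fam l)).IsPrime := fun l hl =>
    VI_prime (fam_uni φ hp hp3 l fun s hs => hS s (hl s hs)) ⟨_, 1, one_mem_fam l, rfl⟩
  obtain ⟨l0, hl0, hmin⟩ : ∃ l0 ∈ D, ∀ l ∈ D, ¬ (VI (mv φ '' fam l)).height <
      (VI (mv φ '' fam l0)).height := by
    obtain ⟨y, ⟨l0, hl0, rfl⟩, hy⟩ := WellFounded.has_min (wellFounded_lt (α := ℕ∞))
      ((fun l => (VI (mv φ '' fam l)).height) '' D) (hDne.image _)
    exact ⟨l0, hl0, fun l hl => hy _ ⟨l, hl, rfl⟩⟩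
  refine Uni.congr ?_ (fam_uni φ hp hp3 l0 fun s hs => hS s (hl0 s hs))
  intro F
  constructor
  · rintro h _ ⟨y, hy, rfl⟩
    exact h _ ⟨y, fam_sub S l0 hl0 hy, rfl⟩
  · rintro h _ ⟨s, hs, rfl⟩
    have hD : (s :: l0) ∈ D := by
      intro t ht
      rcases List.mem_cons.1 ht with rfl | ht
      · exact hs
      · exact hl0 t ht
    have hle : VI (mv φ '' fam (s :: l0)) ≤ VI (mv φ '' fam l0) := by
      rintro G hG _ ⟨y, hy, rfl⟩
      exact hG _ ⟨y, ⟨y, hy, 0, by simp⟩, rfl⟩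
    have h1 := hprime _ hD
    have h2 := hprime _ hl0
    have heq : VI (mv φ '' fam (s :: l0)) = VI (mv φ '' fam l0) := by
      by_contra hne
      exact hmin _ hD (Ideal.height_strict_mono_of_isPrime_of_isPrime (lt_of_le_of_ne hle hne))
    have h3 : F ∈ VI (mv φ '' fam (s :: l0)) := by
      rw [heq]
      exact h
    exact h3 _ ⟨s, ⟨1, one_mem_fam l0, 1, by simp⟩, rfl⟩

end Pool.Agent.TH138.UD
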