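import Pool.Agent.TH138.UD.U3
import Pool.Agent.TH138.LG.Words

set_option autoImplicit false

/-!
# Monoids of matrices over a number field, integral at `p`
-/

namespace Pool.Agent.TH138.UD

open MvPolynomial Pool.Agent.TH717.GO Pool.Agent.TH138.LG NumberField

variable {K L : Type} [Field K] [Field L] {m : ℕ}

/-- the invertible matrices with `p`-integral entries, with their inverse -/
def Inv (p : ℕ) (s : Matrix (Fin m) (Fin m) K) : Prop :=
  (∀ i j, PInt p (s i j)) ∧ ∃ s' : Matrix (Fin m) (Fin m) K, s' * s = 1 ∧ ∀ i j, PInt p (s' i j)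

theorem mulp {p : ℕ} (hp : p.Prime) {X Y : Matrix (Fin m) (Fin m) K}
    (hX : ∀ i j, PInt p (X i j)) (hY : ∀ i j, PInt p (Y i j)) : ∀ i j, PInt p ((X * Y) i j) := by
  intro i j
  rw [Matrix.mul_apply]
  exact PInt.sum hp _ _ fun a _ => (hX i a).mul hp (hY a j)

theorem addp {p : ℕ} (hp : p.Prime) {X Y : Matrix (Fin m) (Fin m) K}
    (hX : ∀ i j, PInt p (X i j)) (hY : ∀ i j, PInt p (Y i j)) : ∀ i j, PInt p ((X + Y) i j) :=
  fun i j => (hX i j).add hp (hY i j)

theorem negp {p : ℕ} (hp : p.Prime) {X : Matrix (Fin m) (Fin m) K}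
    (hX : ∀ i j, PInt p (X i j)) : ∀ i j, PInt p ((-X) i j) := fun i j => by
  rw [Matrix.neg_apply]
  exact (hX i j).neg hp

theorem powp {p : ℕ} (hp : p.Prime) {X : Matrix (Fin m) (Fin m) K}
    (hX : ∀ i j, PInt p (X i j)) (k : ℕ) : ∀ i j, PInt p ((X ^ k) i j) := by
  induction k with
  | zero => rw [pow_zero]; exact one_pint hp
  | succ k ih => rw [pow_succ]; exact mulp hp ih hX

theorem Inv.good {p : ℕ} (hp : p.Prime) {s B : Matrix (Fin m) (Fin m) K} (h : Inv p s)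
    (hB : ∀ i j, PInt p (B i j)) (e : s = 1 + (p : K) • B) : Good p s := by
  obtain ⟨-, s', h1, h2⟩ := h
  refine ⟨s', B, -(s' * B), h1, hB, negp hp (mulp hp h2 hB), e, ?_⟩
  have h5 : s' * s = s' + (p : K) • (s' * B) := by
    conv_lhs => rw [e]
    rw [mul_add, mul_one, Matrix.mul_smul]
  rw [h1] at h5
  rw [h5, smul_neg]
  abel

/-- the matrices of `S` congruent to `1` -/
def S1 {p : ℕ} (hp : p.Prime) (S : Submonoid (Matrix (Fin m) (Fin m) K)) :
    Submonoid (Matrix (Fin m) (Fin m) K) where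
  carrier := {s | s ∈ S ∧ ∃ B : Matrix (Fin m) (Fin m) K, (∀ i j, PInt p (B i j)) ∧
    s = 1 + (p : K) • B}
  one_mem' := ⟨S.one_mem, 0, fun i j => by simpa using PInt.natCast (L := K) hp 0, by simp⟩
  mul_mem' := by
    rintro a b ⟨ha, B, hB, rfl⟩ ⟨hb, C, hC, rfl⟩
    refine ⟨S.mul_mem ha hb, B + C + (p : K) • (B * C), ?_, ?_⟩
    · intro i j
      rw [Matrix.add_apply, Matrix.add_apply, Matrix.smul_apply, smul_eq_mul]
      exact ((hB i j).add hp (hC i j)).add hp ((PInt.natCast hp p).mul hp (mulp hp hB hC i j))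
    · rw [mul_add, add_mul, add_mul, one_mul, mul_one, one_mul, Matrix.mul_smul, Matrix.smul_mul,
        smul_add, smul_add]
      abel

variable [NumberField K]

theorem cong_uni [CharZero L] [IsAlgClosed L] (φ : K →+* L) {p : ℕ} (hp : p.Prime)
    (hp3 : 3 ≤ p) (S : Submonoid (Matrix (Fin m) (Fin m) K)) (hS : ∀ s ∈ S, Inv p s)
    (t : Matrix (Fin m) (Fin m) K) (ht : t ∈ S) :
    Uni (mv φ '' {s | s ∈ S ∧ ∃ D : Matrix (Fin m) (Fin m) K, (∀ i j, PInt p (D i j)) ∧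
      s = t + (p : K) • D}) := by
  obtain ⟨htp, t', ht1, ht2⟩ := hS t ht
  -- a power of `t` is congruent to `1`
  obtain ⟨N, hN, E, hE, hNE⟩ : ∃ N : ℕ, 0 < N ∧ ∃ E : Matrix (Fin m) (Fin m) K,
      (∀ i j, PInt p (E i j)) ∧ t ^ N = 1 + (p : K) • E := by
    obtain ⟨red, hred⟩ := exists_redM (K := K) (r := m) hp
    have hfin := quot_finite (K := K) hp
    obtain ⟨a, b, hab, hc⟩ := Finite.exists_ne_map_eq_of_infinite (fun i : ℕ => red (t ^ i))
    have key : ∀ a b : ℕ, a < b → red (t ^ a) = red (t ^ b) → ∃ N : ℕ, 0 < N ∧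
        ∃ E : Matrix (Fin m) (Fin m) K, (∀ i j, PInt p (E i j)) ∧ t ^ N = 1 + (p : K) • E := by
      intro a b hab hc
      obtain ⟨D, hD, hDe⟩ := hred _ _ (powp hp htp a) (powp hp htp b) hc
      have h1 : t' ^ a * t ^ a = 1 := by
        have hcomm : Commute t' t := by
          show t' * t = t * t'
          rw [ht1, mul_eq_one_comm.1 ht1]
        rw [← hcomm.mul_pow, ht1, one_pow]
      refine ⟨b - a, by omega, t' ^ a * D, mulp hp (powp hp ht2 a) hD, ?_⟩
      calc t ^ (b - a) = t' ^ a * (t ^ a * t ^ (b - a)) := by rw [← mul_assoc, h1, one_mul]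
        _ = t' ^ a * t ^ b := by rw [← pow_add]; congr 2; omega
        _ = _ := by rw [hDe, mul_add, h1, Matrix.mul_smul]
    rcases lt_or_gt_of_ne hab with h | h
    · exact key a b h hc
    · exact key b a h hc.symm
  have hS1 : ∀ s ∈ S1 hp S, Good p s := by
    rintro s ⟨hs, B, hB, e⟩
    exact (hS s hs).good hp hB e
  have hu := (monoid_uni φ hp hp3 (S1 hp S) hS1).im₂ (mulΦ L m) (Uni.singleton (mv φ t))
  have himg : im₂ (mulΦ L m) (mv φ '' (S1 hp S : Set (Matrix (Fin m) (Fin m) K))) {mv φ t} =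
      mv φ '' {x | ∃ s ∈ (S1 hp S : Set (Matrix (Fin m) (Fin m) K)), ∃ y ∈ ({t} : Set _),
        x = s * y} := by
    rw [mv_image_mul, Set.image_singleton]
  rw [himg] at hu
  refine Uni.congr ?_ hu
  intro F
  constructor
  · rintro h _ ⟨_, ⟨s, ⟨hs, B, hB, rfl⟩, _, rfl, rfl⟩, rfl⟩
    refine h _ ⟨_, ⟨S.mul_mem hs ht, B * _, mulp hp hB htp, ?_⟩, rfl⟩
    rw [add_mul, one_mul, Matrix.smul_mul]
  · rintro h _ ⟨s, ⟨hs, D, hD, e⟩, rfl⟩
    have hg : Good p (t ^ N) := (hS _ (S.pow_mem ht N)).good hp hE hNE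
    refine (powers_two φ hp hp3 hg s).2 F fun i hi => ?_
    have hmem : t ^ N ∈ S1 hp S := ⟨S.pow_mem ht N, E, hE, hNE⟩
    obtain ⟨-, E', hE', he'⟩ := (S1 hp S).pow_mem hmem i
    have hNi : 0 < N * i := Nat.mul_pos hN hi
    have h1 : s * (t ^ N) ^ i = (s * t ^ (N * i - 1)) * t := by
      rw [mul_assoc, ← pow_succ, ← pow_mul]
      congr 3
      omega
    rw [h1]
    refine h _ ⟨_, ⟨s * t ^ (N * i - 1), ⟨S.mul_mem hs (S.pow_mem ht _),
      E' + D * t ^ (N * i - 1), addp hp hE' (mulp hp hD (powp hp htp _)), ?_⟩, t, rfl, rfl⟩, rfl⟩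
    rw [e, add_mul, Matrix.smul_mul, smul_add, ← add_assoc, ← he', ← pow_mul, ← pow_succ']
    congr 2
    omega

/-- **A monoid of invertible matrices, integral at `p`.** -/
theorem monoid_FU [CharZero L] [IsAlgClosed L] (φ : K →+* L) {p : ℕ} (hp : p.Prime)
    (hp3 : 3 ≤ p) (S : Submonoid (Matrix (Fin m) (Fin m) K)) (hS : ∀ s ∈ S, Inv p s) :
    FU (mv φ '' (S : Set (Matrix (Fin m) (Fin m) K))) := by
  classical
  obtain ⟨red, hred⟩ := exists_redM (K := K) (r := m) hp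
  have hfin := quot_finite (K := K) hp
  let Y : (Fin m → Fin m → 𝓞 K ⧸ (Ideal.span {(p : 𝓞 K)} : Ideal (𝓞 K))) →
      Set (Matrix (Fin m) (Fin m) K) := fun c =>
    if h : ∃ t ∈ S, red t = c then {s | s ∈ S ∧ ∃ D : Matrix (Fin m) (Fin m) K,
      (∀ i j, PInt p (D i j)) ∧ s = h.choose + (p : K) • D} else ∅
  have h1 : (S : Set (Matrix (Fin m) (Fin m) K)) = ⋃ c, Y c := by
    ext s
    rw [Set.mem_iUnion]
    constructor
    · intro hs
      have h : ∃ t ∈ S, red t = red s := ⟨s, hs, rfl⟩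
      refine ⟨red s, ?_⟩
      simp only [Y, dif_pos h]
      exact ⟨hs, hred _ _ (hS _ h.choose_spec.1).1 (hS s hs).1 h.choose_spec.2⟩
    · rintro ⟨c, hc⟩
      by_cases h : ∃ t ∈ S, red t = c
      · simp only [Y, dif_pos h] at hc
        exact hc.1
      · simp only [Y, dif_neg h] at hc
        exact absurd hc (Set.notMem_empty s)
  rw [h1, Set.image_iUnion]
  refine FU.iUnion fun c => ?_
  by_cases h : ∃ t ∈ S, red t = c
  · simp only [Y, dif_pos h]
    exact FU.of_uni (cong_uni φ hp hp3 S hS _ h.choose_spec.1)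
  · simp only [Y, dif_neg h, Set.image_empty]
    exact FU.empty

end Pool.Agent.TH138.UD
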