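import Pool.Agent.TH138.UD.U4
import Pool.Agent.TH138.LG.AffWords

set_option autoImplicit false

/-!
# The closure of a context-free family
-/

namespace Pool.Agent.TH138.UD

open MvPolynomial Pool.Agent.TH717.GO Pool.Agent.TH138.LG NumberField

section grammar

variable {T : Type}

/-- `w` is derived from `α` with rules whose left-hand side is in `𝒩` -/
inductive DLr (g : ContextFreeGrammar T) (𝒩 : Set g.NT) : List (Symbol T g.NT) → List T → Prop
  | nil : DLr g 𝒩 [] []
  | term (a : T) {l : List (Symbol T g.NT)} {w : List T} :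
      DLr g 𝒩 l w → DLr g 𝒩 (.terminal a :: l) (a :: w)
  | nt (r : ContextFreeRule T g.NT) (hr : r ∈ g.rules) (hi : r.input ∈ 𝒩) {w₁ w₂ : List T}
      {l : List (Symbol T g.NT)} :
      DLr g 𝒩 r.output w₁ → DLr g 𝒩 l w₂ → DLr g 𝒩 (.nonterminal r.input :: l) (w₁ ++ w₂)

variable {g : ContextFreeGrammar T} {𝒩 : Set g.NT}

theorem DLr.mono {𝒩' : Set g.NT} (h𝒩 : 𝒩 ⊆ 𝒩') {α : List (Symbol T g.NT)} {w : List T}
    (h : DLr g 𝒩 α w) : DLr g 𝒩' α w := by
  induction h with
  | nil => exact .nil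
  | term a _ ih => exact .term a ih
  | nt r hr hi _ _ ih1 ih2 => exact .nt r hr (h𝒩 hi) ih1 ih2

theorem DLr.of_DL {α : List (Symbol T g.NT)} {w : List T} (h : DL g α w) :
    DLr g (inputs g : Set g.NT) α w := by
  classical
  induction h with
  | nil => exact .nil
  | term a _ ih => exact .term a ih
  | nt r hr _ _ ih1 ih2 =>
    refine .nt r hr ?_ ih1 ih2
    unfold inputs
    rw [Finset.coe_image]
    exact ⟨r, hr, rfl⟩

theorem DLr.toDL {α : List (Symbol T g.NT)} {w : List T} (h : DLr g 𝒩 α w) : DL g α w := by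
  induction h with
  | nil => exact .nil
  | term a _ ih => exact .term a ih
  | nt r hr _ _ _ ih1 ih2 => exact .nt r hr ih1 ih2

theorem DLr.append {α β : List (Symbol T g.NT)} {w w' : List T} (h : DLr g 𝒩 α w)
    (h' : DLr g 𝒩 β w') : DLr g 𝒩 (α ++ β) (w ++ w') := by
  induction h with
  | nil => simpa using h'
  | term a _ ih => exact .term a ih
  | nt r hr hi h1 _ _ ih2 => rw [List.cons_append, List.append_assoc]; exact .nt r hr hi h1 ih2

theorem DLr.rule {r : ContextFreeRule T g.NT} (hr : r ∈ g.rules) (hi : r.input ∈ 𝒩) {w : List T}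
    (h : DLr g 𝒩 r.output w) : DLr g 𝒩 [.nonterminal r.input] w := by
  simpa using DLr.nt r hr hi h .nil

theorem DLr.nil_iff {w : List T} : DLr g 𝒩 [] w ↔ w = [] := by
  constructor
  · intro h
    generalize hl : ([] : List (Symbol T g.NT)) = l at h
    cases h with
    | nil => rfl
    | term => cases hl
    | nt => cases hl
  · rintro rfl
    exact .nil

theorem DLr.term_iff {a : T} {l : List (Symbol T g.NT)} {w : List T} :
    DLr g 𝒩 (.terminal a :: l) w ↔ ∃ w', w = [a] ++ w' ∧ DLr g 𝒩 l w' := by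
  constructor
  · intro h
    generalize hl : (.terminal a :: l : List (Symbol T g.NT)) = l' at h
    cases h with
    | nil => cases hl
    | term b h1 =>
      cases hl
      exact ⟨_, rfl, h1⟩
    | nt => cases hl
  · rintro ⟨w', rfl, h⟩
    exact .term a h

theorem DLr.nt_iff {X : g.NT} {l : List (Symbol T g.NT)} {w : List T} :
    DLr g 𝒩 (.nonterminal X :: l) w ↔ ∃ w₁ w₂, w = w₁ ++ w₂ ∧ DLr g 𝒩 [.nonterminal X] w₁ ∧
      DLr g 𝒩 l w₂ := by
  constructor
  · intro h
    generalize hl : (.nonterminal X :: l : List (Symbol T g.NT)) = l' at h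
    cases h with
    | nil => cases hl
    | term b h1 => cases hl
    | @nt r hr hi w₁ w₂ l'' h1 h2 =>
      cases hl
      exact ⟨w₁, w₂, rfl, DLr.rule hr hi h1, h2⟩
  · rintro ⟨w₁, w₂, rfl, h1, h2⟩
    exact h1.append h2

theorem DLr.input_mem {X : g.NT} {w : List T} (h : DLr g 𝒩 [.nonterminal X] w) : X ∈ 𝒩 := by
  generalize hl : ([.nonterminal X] : List (Symbol T g.NT)) = l' at h
  cases h with
  | nil => cases hl
  | term b h1 => cases hl
  | nt r hr hi h1 h2 =>
    cases hl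
    exact hi

/-- the last use of a rule with left-hand side `X` -/
theorem DLr.last {X : g.NT} {α : List (Symbol T g.NT)} {w : List T} (h : DLr g 𝒩 α w) :
    DLr g (𝒩 \ {X}) α w ∨ ∃ (p x q : List T) (r : ContextFreeRule T g.NT), w = p ++ x ++ q ∧
      r ∈ g.rules ∧ r.input = X ∧ DLr g (𝒩 \ {X}) r.output x ∧
      ∀ y, DLr g 𝒩 [.nonterminal X] y → DLr g 𝒩 α (p ++ y ++ q) := by
  induction h with
  | nil => exact .inl .nil
  | term a _ ih =>
    rcases ih with ih | ⟨p, x, q, r, rfl, hr, hX, hx, hc⟩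
    · exact .inl (.term a ih)
    · exact .inr ⟨a :: p, x, q, r, rfl, hr, hX, hx, fun y hy => .term a (hc y hy)⟩
  | @nt r hr hi w₁ w₂ l h1 h2 ih1 ih2 =>
    rcases ih1 with ih1 | ⟨p, x, q, r', rfl, hr', hX, hx, hc⟩
    · by_cases hrX : r.input = X
      · refine .inr ⟨[], w₁, w₂, r, rfl, hr, hrX, ih1, fun y hy => ?_⟩
        rw [hrX]
        exact hy.append h2
      · rcases ih2 with ih2 | ⟨p, x, q, r', rfl, hr', hX, hx, hc⟩
        · exact .inl (DLr.nt (𝒩 := 𝒩 \ {X}) r hr (show r.input ∈ 𝒩 \ {X} from ⟨hi, hrX⟩) ih1 ih2)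
        · refine .inr ⟨w₁ ++ p, x, q, r', by simp, hr', hX, hx, fun y hy => ?_⟩
          have := DLr.nt r hr hi h1 (hc y hy)
          simpa [List.append_assoc] using this
    · refine .inr ⟨p, x, q ++ w₂, r', by simp, hr', hX, hx, fun y hy => ?_⟩
      have := DLr.nt r hr hi (hc y hy) h2
      simpa [List.append_assoc] using this

theorem DLr.single_iff {X : g.NT} (hX : X ∈ 𝒩) {w : List T} :
    DLr g 𝒩 [.nonterminal X] w ↔ ∃ r ∈ g.rules, r.input = X ∧ ∃ p q x, w = p ++ x ++ q ∧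
      (∀ y, DLr g 𝒩 [.nonterminal X] y → DLr g 𝒩 [.nonterminal X] (p ++ y ++ q)) ∧
      DLr g (𝒩 \ {X}) r.output x := by
  constructor
  · intro h
    rcases h.last (X := X) with h1 | ⟨p, x, q, r, h1, h2, h3, h4, h5⟩
    · exact absurd h1.input_mem fun h => h.2 rfl
    · exact ⟨r, h2, h3, p, q, x, h1, h5, h4⟩
  · rintro ⟨r, hr, rfl, p, q, x, rfl, hc, hx⟩
    exact hc x (DLr.rule hr hX (hx.mono Set.sdiff_subset))

end grammar

/-- polynomial images -/
theorem FU.map {L κ κ₁ : Type} [Field L] (Ψ : κ → MvPolynomial κ₁ L) {X : Set (κ₁ → L)}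
    (h : FU X) : FU {z | ∃ x ∈ X, z = fun i => eval x (Ψ i)} := by
  have h1 := h.im₂ (fun i => rename (Sum.inl : κ₁ → κ₁ ⊕ Empty) (Ψ i))
    (FU.of_uni (Uni.singleton (fun e : Empty => (e.elim : L))))
  have h2 : Pool.Agent.TH138.UD.im₂ (fun i => rename (Sum.inl : κ₁ → κ₁ ⊕ Empty) (Ψ i)) X
      {fun e : Empty => (e.elim : L)} = {z | ∃ x ∈ X, z = fun i => eval x (Ψ i)} := by
    ext z
    constructor
    · rintro ⟨x, hx, y, _, rfl⟩
      refine ⟨x, hx, ?_⟩
      funext i
      rw [eval_rename]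
      rfl
    · rintro ⟨x, hx, rfl⟩
      refine ⟨x, hx, _, rfl, ?_⟩
      funext i
      rw [eval_rename]
      rfl
  rw [← h2]
  exact h1

section values

variable {K L : Type} [Field K] [Field L] {m : ℕ} {A : Type}

/-- the product of the matrices of the letters of a word -/
def Pw (ρ : A → Matrix.GeneralLinearGroup (Fin m) K) (w : List A) : Matrix (Fin m) (Fin m) K :=
  ((w.map ρ).prod : Matrix.GeneralLinearGroup (Fin m) K)

theorem Pw_append (ρ : A → Matrix.GeneralLinearGroup (Fin m) K) (w w' : List A) :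
    Pw ρ (w ++ w') = Pw ρ w * Pw ρ w' := by
  unfold Pw
  rw [List.map_append, List.prod_append, Units.val_mul]

/-- the values of the words of `W` -/
def vals (φ : K →+* L) (ρ : A → Matrix.GeneralLinearGroup (Fin m) K) (W : Set (List A)) :
    Set (Fin m × Fin m → L) :=
  {z | ∃ w ∈ W, z = mv φ (Pw ρ w)}

/-- the action of matrices of size `m²` on matrices of size `m` -/
noncomputable def actΦ (L : Type) [Field L] (m : ℕ) : Fin m × Fin m →
    MvPolynomial ((Fin (m * m) × Fin (m * m)) ⊕ (Fin m × Fin m)) L :=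
  fun q => ∑ b, X (Sum.inl (finProdFinEquiv q, b)) * X (Sum.inr (finProdFinEquiv.symm b))

theorem mv_act (φ : K →+* L) (V Y N : Matrix (Fin m) (Fin m) K) :
    mv φ (V * N * Y) = fun i => eval (Sum.elim (mv φ (Kr V Y)) (mv φ N)) (actΦ L m i) := by
  funext q
  have h1 : (V * N * Y) q.1 q.2 = vec (V * N * Y) (finProdFinEquiv q) := by
    simp [vec]
  unfold mv actΦ
  rw [h1, ← Kr_mulVec, Matrix.mulVec, dotProduct, map_sum, map_sum]
  refine Finset.sum_congr rfl fun b _ => ?_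
  rw [map_mul, map_mul, eval_X, eval_X]
  rfl

/-- the contexts of `X` -/
def ctxS {g : ContextFreeGrammar A} (𝒩 : Set g.NT) (X : g.NT)
    (ρ : A → Matrix.GeneralLinearGroup (Fin m) K) :
    Submonoid (Matrix (Fin (m * m)) (Fin (m * m)) K) where
  carrier := {s | ∃ p q : List A, (∀ y, DLr g 𝒩 [.nonterminal X] y →
    DLr g 𝒩 [.nonterminal X] (p ++ y ++ q)) ∧ s = Kr (Pw ρ p) (Pw ρ q)}
  one_mem' := ⟨[], [], fun y hy => by simpa using hy, by
    have : Pw ρ ([] : List A) = 1 := by simp [Pw]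
    rw [this, Kr_one]⟩
  mul_mem' := by
    rintro _ _ ⟨p, q, h, rfl⟩ ⟨p', q', h', rfl⟩
    refine ⟨p ++ p', q' ++ q, fun y hy => ?_, ?_⟩
    · have := h _ (h' y hy)
      simpa [List.append_assoc] using this
    · rw [Kr_mul, Pw_append, Pw_append]

theorem vals_single (φ : K →+* L) {g : ContextFreeGrammar A} (𝒩 : Set g.NT) (X : g.NT)
    (hX : X ∈ 𝒩) (ρ : A → Matrix.GeneralLinearGroup (Fin m) K) :
    vals φ ρ {w | DLr g 𝒩 [.nonterminal X] w} =
      ⋃ r : {r : ContextFreeRule A g.NT // r ∈ g.rules ∧ r.input = X},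
        im₂ (actΦ L m) (mv φ '' (ctxS 𝒩 X ρ : Set (Matrix (Fin (m * m)) (Fin (m * m)) K)))
          (vals φ ρ {w | DLr g (𝒩 \ {X}) r.1.output w}) := by
  ext z
  rw [Set.mem_iUnion]
  constructor
  · rintro ⟨w, hw, rfl⟩
    obtain ⟨r, hr, hrX, p, q, x, rfl, hc, hx⟩ := (DLr.single_iff hX).1 hw
    refine ⟨⟨r, hr, hrX⟩, _, ⟨_, ⟨p, q, hc, rfl⟩, rfl⟩, _, ⟨x, hx, rfl⟩, ?_⟩
    rw [Pw_append, Pw_append, mv_act]
  · rintro ⟨⟨r, hr, hrX⟩, _, ⟨_, ⟨p, q, hc, rfl⟩, rfl⟩, _, ⟨x, hx, rfl⟩, rfl⟩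
    refine ⟨p ++ x ++ q, (DLr.single_iff hX).2 ⟨r, hr, hrX, p, q, x, rfl, hc, hx⟩, ?_⟩
    rw [Pw_append, Pw_append, mv_act]

theorem vals_mul (φ : K →+* L) (ρ : A → Matrix.GeneralLinearGroup (Fin m) K)
    (W W' : Set (List A)) :
    vals φ ρ {w | ∃ w₁ w₂, w = w₁ ++ w₂ ∧ w₁ ∈ W ∧ w₂ ∈ W'} =
      im₂ (mulΦ L m) (vals φ ρ W) (vals φ ρ W') := by
  ext z
  constructor
  · rintro ⟨_, ⟨w₁, w₂, rfl, h1, h2⟩, rfl⟩
    exact ⟨_, ⟨w₁, h1, rfl⟩, _, ⟨w₂, h2, rfl⟩, by rw [Pw_append, mv_mul]⟩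
  · rintro ⟨_, ⟨w₁, h1, rfl⟩, _, ⟨w₂, h2, rfl⟩, rfl⟩
    exact ⟨_, ⟨w₁, w₂, rfl, h1, h2⟩, by rw [Pw_append, mv_mul]⟩

theorem ctxS_inv {g : ContextFreeGrammar A} (𝒩 : Set g.NT) (X : g.NT) {p : ℕ} (hp : p.Prime)
    (ρ : A → Matrix.GeneralLinearGroup (Fin m) K) (hρ : ∀ a, ρ a ∈ GLp (K := K) hp m) :
    ∀ s ∈ ctxS 𝒩 X ρ, Inv p s := by
  have hw : ∀ w : List A, (w.map ρ).prod ∈ GLp (K := K) hp m := by
    intro w
    refine Subgroup.list_prod_mem _ ?_
    intro x hx
    obtain ⟨a, _, rfl⟩ := List.mem_map.1 hx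
    exact hρ a
  rintro _ ⟨u, z, -, rfl⟩
  refine ⟨Kr_pint hp (hw u).1 (hw z).1, ?_⟩
  refine ⟨Kr (((u.map ρ).prod⁻¹ : Matrix.GeneralLinearGroup (Fin m) K))
    (((z.map ρ).prod⁻¹ : Matrix.GeneralLinearGroup (Fin m) K)), ?_,
    Kr_pint hp (hw u).2 (hw z).2⟩
  rw [Kr_mul]
  unfold Pw
  rw [Units.inv_mul, Units.mul_inv, Kr_one]

variable [NumberField K]

theorem vals_FU [CharZero L] [IsAlgClosed L] (φ : K →+* L) {p : ℕ} (hp : p.Prime) (hp3 : 3 ≤ p)
    (ρ : A → Matrix.GeneralLinearGroup (Fin m) K) (hρ : ∀ a, ρ a ∈ GLp (K := K) hp m)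
    (g : ContextFreeGrammar A) :
    ∀ (N : ℕ) (𝒩 : Finset g.NT), 𝒩.card = N → ∀ α : List (Symbol A g.NT),
      FU (vals φ ρ {w | DLr g (𝒩 : Set g.NT) α w}) := by
  classical
  intro N
  induction N using Nat.strong_induction_on with
  | _ N ih =>
    intro 𝒩 h𝒩
    have hsing : ∀ X : g.NT, FU (vals φ ρ {w | DLr g (𝒩 : Set g.NT) [.nonterminal X] w}) := by
      intro X
      by_cases hX : X ∈ 𝒩
      · rw [vals_single φ (𝒩 : Set g.NT) X (Finset.mem_coe.2 hX) ρ]
        haveI : Finite {r : ContextFreeRule A g.NT // r ∈ g.rules ∧ r.input = X} :=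
          Finite.of_injective (fun r => (⟨r.1, r.2.1⟩ : {r // r ∈ g.rules}))
            (fun r r' h => Subtype.ext (Subtype.mk.inj h))
        refine FU.iUnion fun r => ?_
        refine FU.im₂ _ (monoid_FU φ hp hp3 _ (ctxS_inv _ X hp ρ hρ)) ?_
        have h2 := ih (𝒩.erase X).card (by rw [← h𝒩]; exact Finset.card_erase_lt_of_mem hX)
          (𝒩.erase X) rfl r.1.output
        rw [Finset.coe_erase] at h2
        exact h2
      · have : vals φ ρ {w | DLr g (𝒩 : Set g.NT) [.nonterminal X] w} = ∅ := by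
          rw [Set.eq_empty_iff_forall_notMem]
          rintro z ⟨w, hw, -⟩
          exact hX (Finset.mem_coe.1 (DLr.input_mem hw))
        rw [this]
        exact FU.empty
    intro α
    induction α with
    | nil =>
      have : vals φ ρ {w | DLr g (𝒩 : Set g.NT) [] w} = {mv φ (Pw ρ [])} := by
        ext z
        constructor
        · rintro ⟨w, hw, rfl⟩
          rw [DLr.nil_iff.1 hw]
          rfl
        · rintro rfl
          exact ⟨[], DLr.nil, rfl⟩
      rw [this]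
      exact FU.of_uni (Uni.singleton _)
    | cons s l ihl =>
      rcases s with a | X
      · have h1 : {w | DLr g (𝒩 : Set g.NT) (.terminal a :: l) w} =
            {w | ∃ w₁ w₂, w = w₁ ++ w₂ ∧ w₁ ∈ ({[a]} : Set (List A)) ∧
              w₂ ∈ {w | DLr g (𝒩 : Set g.NT) l w}} := by
          ext w
          rw [Set.mem_setOf_eq, DLr.term_iff]
          constructor
          · rintro ⟨w', rfl, h⟩
            exact ⟨_, _, rfl, rfl, h⟩
          · rintro ⟨_, w', rfl, rfl, h⟩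
            exact ⟨w', rfl, h⟩
        rw [h1, vals_mul]
        refine FU.im₂ _ ?_ ihl
        have : vals φ ρ ({[a]} : Set (List A)) = {mv φ (Pw ρ [a])} := by
          ext z
          constructor
          · rintro ⟨w, rfl, rfl⟩
            rfl
          · rintro rfl
            exact ⟨[a], rfl, rfl⟩
        rw [this]
        exact FU.of_uni (Uni.singleton _)
      · have h1 : {w | DLr g (𝒩 : Set g.NT) (.nonterminal X :: l) w} =
            {w | ∃ w₁ w₂, w = w₁ ++ w₂ ∧ w₁ ∈ {w | DLr g (𝒩 : Set g.NT) [.nonterminal X] w} ∧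
              w₂ ∈ {w | DLr g (𝒩 : Set g.NT) l w}} := by
          ext w
          rw [Set.mem_setOf_eq, DLr.nt_iff]
          rfl
        rw [h1, vals_mul]
        exact FU.im₂ _ (hsing X) ihl

/-- **The closure of a context-free family of matrix products.** -/
theorem language_FU [CharZero L] [IsAlgClosed L] [Finite A] (φ : K →+* L)
    (ρ : A → Matrix.GeneralLinearGroup (Fin m) K) (g : ContextFreeGrammar A) :
    FU (vals φ ρ g.language) := by
  classical
  obtain ⟨p, hp, hp3, hρ⟩ := exists_prime_letters (K := K) ρ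
  have h1 := vals_FU φ hp hp3 ρ hρ g _ (inputs g) rfl [.nonterminal g.initial]
  have h2 : {w | DLr g (inputs g : Set g.NT) [.nonterminal g.initial] w} = g.language := by
    ext w
    rw [Set.mem_setOf_eq]
    constructor
    · intro h
      exact mem_language.2 h.toDL
    · intro h
      exact DLr.of_DL (mem_language.1 h)
  rw [h2] at h1
  exact h1

/-- **The closure of a context-free family of vectors.** -/
theorem vectors_FU {ι : Type} [CharZero L] [IsAlgClosed L] [Finite A] (φ : K →+* L)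
    (M : Matrix ι (Fin m) K) (ρ : A → Matrix.GeneralLinearGroup (Fin m) K) (v : Fin m → K)
    (g : ContextFreeGrammar A) :
    FU {z : ι → L | ∃ w ∈ g.language, z = fun i => φ (affVec M ρ v w i)} := by
  have h := (language_FU φ ρ g).map (κ := ι)
    (fun i => ∑ a, ∑ b, C (φ (M i a)) * (X (a, b) * C (φ (v b))))
  have h2 : {z : ι → L | ∃ x ∈ vals φ ρ g.language, z = fun i => eval x
      (∑ a, ∑ b, C (φ (M i a)) * (X (a, b) * C (φ (v b))))} =
      {z : ι → L | ∃ w ∈ g.language, z = fun i => φ (affVec M ρ v w i)} := by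
    have h3 : ∀ w : List A, (fun i => eval (mv φ (Pw ρ w))
        (∑ a, ∑ b, C (φ (M i a)) * (X (a, b) * C (φ (v b))))) =
        fun i => φ (affVec M ρ v w i) := by
      intro w
      funext i
      unfold affVec
      rw [Matrix.mulVec, dotProduct, map_sum, map_sum]
      refine Finset.sum_congr rfl fun a _ => ?_
      rw [map_sum, map_mul, Matrix.mulVec, dotProduct, map_sum, Finset.mul_sum]
      refine Finset.sum_congr rfl fun b _ => ?_
      rw [map_mul, map_mul, eval_C, eval_X, eval_C, map_mul]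
      rfl
    ext z
    constructor
    · rintro ⟨_, ⟨w, hw, rfl⟩, rfl⟩
      exact ⟨w, hw, h3 w⟩
    · rintro ⟨w, hw, rfl⟩
      exact ⟨_, ⟨w, hw, rfl⟩, (h3 w).symm⟩
  rw [h2] at h
  exact h

end values

end Pool.Agent.TH138.UD
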