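import Pool.Agent.TH138.UD.U5

set_option autoImplicit false

/-!
# Unirational varieties and families of points
-/

namespace Pool.Agent.TH138.UD

open MvPolynomial Pool.Agent.TH138.LG

theorem Uni.fin {L κ : Type} [Field L] {X : Set (κ → L)} (h : Uni X) :
    ∃ (s : ℕ) (P : κ → MvPolynomial (Fin s ⊕ Fin s) L), SameCl X (Set.range (tor P)) := by
  obtain ⟨σ, hσ, P, hP⟩ := h
  let e := Finite.equivFin σ
  refine ⟨Nat.card σ, fun i => rename (Sum.map e e) (P i), ?_⟩
  have h1 : Set.range (tor P) = Set.range (tor fun i => rename (Sum.map e e) (P i)) := by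
    have h2 : ∀ t : Fin (Nat.card σ) → Lˣ, tor (fun i => rename (Sum.map e e) (P i)) t =
        tor P (t ∘ e) := by
      intro t
      funext i
      unfold tor
      rw [eval_rename]
      congr 2
      funext s
      cases s <;> rfl
    ext z
    constructor
    · rintro ⟨t, rfl⟩
      refine ⟨t ∘ e.symm, ?_⟩
      rw [h2]
      congr 1
      funext j
      simp
    · rintro ⟨t, rfl⟩
      exact ⟨t ∘ e, (h2 t).symm⟩
  rw [← h1]
  exact hP

theorem FU.list {L κ : Type} [Field L] {X : Set (κ → L)} (h : FU X) :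
    ∃ (N : ℕ) (s : Fin N → ℕ) (P : ∀ j, κ → MvPolynomial (Fin (s j) ⊕ Fin (s j)) L),
      ∀ F : MvPolynomial κ L, (∀ x ∈ X, eval x F = 0) ↔
        ∀ (j : Fin N) (t : Fin (s j) → Lˣ), eval (tor (P j) t) F = 0 := by
  obtain ⟨𝒵, h1, h2, h3⟩ := h
  have : Finite 𝒵 := h1
  choose s P hP using fun Z : 𝒵 => (h2 Z.1 Z.2).fin
  let e := Finite.equivFin 𝒵
  refine ⟨Nat.card 𝒵, fun j => s (e.symm j), fun j => P (e.symm j), fun F => ?_⟩
  rw [h3 F]
  constructor
  · intro h j t
    exact (hP (e.symm j) F).1 (fun x hx => h x ⟨_, (e.symm j).2, hx⟩) _ ⟨t, rfl⟩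
  · rintro h x ⟨Z, hZ, hx⟩
    obtain ⟨j, hj⟩ := e.symm.surjective ⟨Z, hZ⟩
    refine (hP (e.symm j) F).2 ?_ x (by rw [hj]; exact hx)
    rintro _ ⟨t, rfl⟩
    exact h j t

/-- a polynomial that vanishes on a torus is zero -/
theorem zero_of_units {L σ : Type} [Field L] [Infinite L] [Fintype σ] (Q : MvPolynomial σ L)
    (h : ∀ t : σ → Lˣ, eval (fun j => ((t j : Lˣ) : L)) Q = 0) : Q = 0 := by
  have h3 : Q * ∏ j, MvPolynomial.X j = 0 := by
    refine MvPolynomial.funext fun u => ?_
    rw [map_zero]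
    by_cases hu : ∀ j, u j ≠ 0
    · have h4 := h fun j => Units.mk0 (u j) (hu j)
      have h5 : eval u Q = 0 := h4
      rw [map_mul, h5, zero_mul]
    · push Not at hu
      obtain ⟨j, hj⟩ := hu
      rw [map_mul, map_prod]
      have : ∏ i, eval u (MvPolynomial.X i) = 0 :=
        Finset.prod_eq_zero (Finset.mem_univ j) (by rw [eval_X, hj])
      rw [this, mul_zero]
  have h7 : (∏ j : σ, (MvPolynomial.X j : MvPolynomial σ L)) ≠ 0 :=
    Finset.prod_ne_zero_iff.2 fun j _ => MvPolynomial.X_ne_zero j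
  exact (mul_eq_zero.1 h3).resolve_right h7

/-- a finite union of closures of images of tori, dense in a projective variety -/
theorem uni_of_FU {n : ℕ} {L : Type} [Field L] [Infinite L]
    (J : Ideal (MvPolynomial (Fin (n + 1)) L)) (hJ : J.IsPrime) {X : Set (Fin (n + 1) → L)}
    (hX : FU X) (h : ∀ (d : ℕ) (F : MvPolynomial (Fin (n + 1)) L), F.IsHomogeneous d →
      (F ∈ J ↔ ∀ x ∈ X, eval x F = 0)) :
    ∃ (s : ℕ) (P : Fin (n + 1) → MvPolynomial (Fin s) L),
      ∀ (d : ℕ) (F : MvPolynomial (Fin (n + 1)) L), F.IsHomogeneous d →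
        (F ∈ J ↔ aeval P F = 0) := by
  classical
  obtain ⟨N, s, P, hP⟩ := hX.list
  obtain ⟨j, hj⟩ : ∃ j, ∀ (d : ℕ) (F : MvPolynomial (Fin (n + 1)) L), F.IsHomogeneous d →
      (∀ t : Fin (s j) → Lˣ, eval (tor (P j) t) F = 0) → F ∈ J := by
    by_contra hcon
    push Not at hcon
    choose d F hF hFt hFJ using hcon
    have h1 : (∏ j, F j) ∈ J := by
      refine (h _ _ (IsHomogeneous.prod Finset.univ F d fun j _ => hF j)).2 ((hP _).2 ?_)
      intro j t
      rw [map_prod]
      exact Finset.prod_eq_zero (Finset.mem_univ j) (hFt j t)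
    obtain ⟨j, -, hj⟩ := hJ.prod_mem_iff.1 h1
    exact hFJ j hj
  have hiff : ∀ (d : ℕ) (F : MvPolynomial (Fin (n + 1)) L), F.IsHomogeneous d →
      (F ∈ J ↔ ∀ t : Fin (s j) → Lˣ, eval (tor (P j) t) F = 0) := by
    intro d F hF
    exact ⟨fun h1 => (hP F).1 ((h d F hF).1 h1) j, hj d F hF⟩
  choose E G hG using fun i => clear (P j i)
  let T : MvPolynomial (Fin (s j)) L := ∏ a, MvPolynomial.X a
  let P' : Fin (n + 1) → MvPolynomial (Fin (s j)) L := fun i => G i * T ^ (∑ a, E a - E i)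
  have hP' : ∀ (t : Fin (s j) → Lˣ) (i : Fin (n + 1)),
      eval (fun a => ((t a : Lˣ) : L)) (P' i) =
        (∏ a, ((t a : Lˣ) : L)) ^ (∑ a, E a) * tor (P j) t i := by
    intro t i
    have h1 : E i ≤ ∑ a, E a := Finset.single_le_sum (fun _ _ => Nat.zero_le _) (Finset.mem_univ i)
    have h2 : eval (fun a => ((t a : Lˣ) : L)) T = ∏ a, ((t a : Lˣ) : L) := by
      simp only [T]
      rw [map_prod]
      simp only [eval_X]
    show eval _ (G i * T ^ (∑ a, E a - E i)) = _
    rw [map_mul, hG i t, map_pow, h2]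
    have h3 : (∏ a, ((t a : Lˣ) : L)) ^ (∑ a, E a) = (∏ a, ((t a : Lˣ) : L)) ^ (E i) *
        (∏ a, ((t a : Lˣ) : L)) ^ (∑ a, E a - E i) := by
      rw [← pow_add]
      congr 1
      omega
    rw [h3]
    unfold tor
    ring
  refine ⟨s j, P', fun d F hF => ?_⟩
  have hev : ∀ t : Fin (s j) → Lˣ, eval (fun a => ((t a : Lˣ) : L)) (aeval P' F) =
      ((∏ a, ((t a : Lˣ) : L)) ^ (∑ a, E a)) ^ d * eval (tor (P j) t) F := by
    intro t
    have h1 : aeval P' F = bind₁ P' F := rfl
    rw [h1, eval_bind]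
    have h2 : (fun i => eval (fun a => ((t a : Lˣ) : L)) (P' i)) =
        fun i => (∏ a, ((t a : Lˣ) : L)) ^ (∑ a, E a) * tor (P j) t i := funext (hP' t)
    rw [h2]
    have h3 := aeval_mul_hom (L := L) F d hF ((∏ a, ((t a : Lˣ) : L)) ^ (∑ a, E a)) (tor (P j) t)
    exact h3
  rw [hiff d F hF]
  constructor
  · intro h1
    refine zero_of_units _ fun t => ?_
    rw [hev, h1 t, mul_zero]
  · intro h1 t
    have h2 := hev t
    rw [h1, map_zero] at h2
    refine (mul_eq_zero.1 h2.symm).resolve_left (pow_ne_zero _ (pow_ne_zero _ ?_))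
    exact Finset.prod_ne_zero_iff.2 fun a _ => (t a).ne_zero

/-- the monomials in the primes -/
noncomputable def pm {s : ℕ} (β : Fin s →₀ ℕ) : ℕ := β.prod fun j e => Nat.nth Nat.Prime j ^ e

theorem pm_eq {s : ℕ} (β : Fin s →₀ ℕ) : pm β = ∏ j : Fin s, Nat.nth Nat.Prime j ^ β j :=
  Finsupp.prod_fintype _ _ fun _ => pow_zero _

theorem pm_injective (s : ℕ) : Function.Injective (pm : (Fin s →₀ ℕ) → ℕ) := by
  classical
  have hinf := Nat.infinite_setOfPred_prime
  let f : Fin s → ℕ := fun j => Nat.nth Nat.Prime j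
  have hf : Function.Injective f := by
    intro a b h
    exact Fin.ext (Nat.nth_injective hinf h)
  have h1 : ∀ β : Fin s →₀ ℕ, (pm β).factorization = β.mapDomain f := by
    intro β
    have h2 : pm β = (β.mapDomain f).prod (· ^ ·) := by
      rw [Finsupp.prod_mapDomain_index_inj hf]
      rfl
    rw [h2]
    refine Nat.prod_pow_factorization_eq_self fun p hp => ?_
    obtain ⟨j, -, rfl⟩ := Finset.mem_image.1 (Finsupp.mapDomain_support hp)
    exact Nat.prime_nth_prime j
  intro β γ h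
  have h3 : β.mapDomain f = γ.mapDomain f := by rw [← h1, ← h1, h]
  exact Finsupp.mapDomain_injective hf h3

theorem pm_ne_zero {s : ℕ} (β : Fin s →₀ ℕ) : pm β ≠ 0 := by
  rw [pm_eq]
  exact Finset.prod_ne_zero_iff.2 fun j _ => pow_ne_zero _ (Nat.prime_nth_prime j).ne_zero

theorem eval_primes {L : Type} [Field L] {s : ℕ} (Q : MvPolynomial (Fin s) L) (m : ℕ) :
    eval (fun j : Fin s => ((Nat.nth Nat.Prime j : ℕ) : L) ^ m) Q =
      ∑ β ∈ Q.support, Q.coeff β * ((pm β : ℕ) : L) ^ m := by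
  rw [eval_eq']
  refine Finset.sum_congr rfl fun β _ => ?_
  congr 1
  rw [pm_eq, Nat.cast_prod, ← Finset.prod_pow]
  refine Finset.prod_congr rfl fun j _ => ?_
  rw [Nat.cast_pow, ← pow_mul, ← pow_mul, mul_comm]

/-- the points with prime power coordinates are dense -/
theorem dense_powers {L : Type} [Field L] [CharZero L] {s : ℕ} (Q : MvPolynomial (Fin s) L)
    (h : ∀ m : ℕ, eval (fun j : Fin s => ((Nat.nth Nat.Prime j : ℕ) : L) ^ m) Q = 0) : Q = 0 := by
  classical
  let χ : (Fin s →₀ ℕ) → (Multiplicative ℕ →* L) := fun β => powersHom L ((pm β : ℕ) : L)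
  have hχ : Function.Injective χ := by
    intro β γ hβ
    have h1 : ((pm β : ℕ) : L) = ((pm γ : ℕ) : L) := (powersHom L).injective hβ
    exact pm_injective s (Nat.cast_injective h1)
  have hli := (linearIndependent_monoidHom (Multiplicative ℕ) L).comp χ hχ
  have h2 : ∑ β ∈ Q.support, Q.coeff β • ((fun f : Multiplicative ℕ →* L =>
      (f : Multiplicative ℕ → L)) ∘ χ) β = 0 := by
    funext m
    rw [Finset.sum_apply, Pi.zero_apply, ← h (Multiplicative.toAdd m), eval_primes]
    refine Finset.sum_congr rfl fun β _ => ?_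
    rw [Pi.smul_apply, smul_eq_mul]
    rfl
  have h3 := linearIndependent_iff'.1 hli Q.support (fun β => Q.coeff β) h2
  ext β
  rw [coeff_zero]
  by_cases hβ : β ∈ Q.support
  · exact h3 β hβ
  · exact notMem_support_iff.1 hβ

/-- **A unirational variety over the algebraic numbers has a dense one-letter family.** -/
theorem family_of_uni {n s : ℕ} {L : Type} [Field L] [CharZero L] [Algebra.IsAlgebraic ℚ L]
    (P : Fin (n + 1) → MvPolynomial (Fin s) L) :
    ∃ (K : Type) (_ : Field K) (_ : NumberField K) (φ : K →+* L) (r : ℕ)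
      (M : Matrix (Fin (n + 1)) (Fin r) K) (B : Matrix.GeneralLinearGroup (Fin r) K)
      (v : Fin r → K), ∀ F : MvPolynomial (Fin (n + 1)) (L),
        aeval P F = 0 ↔ ∀ m : ℕ, eval (fun i => φ (M.mulVec
          (((B ^ m : Matrix.GeneralLinearGroup (Fin r) K) :
            Matrix (Fin r) (Fin r) K).mulVec v) i)) F = 0 := by
  classical
  let S : Finset (L) := Finset.univ.biUnion fun i =>
    (P i).support.image fun β => (P i).coeff β
  let K := IntermediateField.adjoin ℚ (S : Set (L))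
  have hfd : FiniteDimensional ℚ K := IntermediateField.finiteDimensional_adjoin
    (S := (S : Set (L))) fun x _ => (Algebra.IsAlgebraic.isAlgebraic x).isIntegral
  have hNF : NumberField K := ⟨⟩
  have hc : ∀ (i : Fin (n + 1)) (β : Fin s →₀ ℕ), ∃ c : K, (c : L) =
      (P i).coeff β := by
    intro i β
    by_cases hβ : β ∈ (P i).support
    · refine ⟨⟨(P i).coeff β, IntermediateField.subset_adjoin _ _ ?_⟩, rfl⟩
      rw [Finset.mem_coe, Finset.mem_biUnion]
      exact ⟨i, Finset.mem_univ i, Finset.mem_image.2 ⟨β, hβ, rfl⟩⟩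
    · exact ⟨0, by rw [notMem_support_iff.1 hβ]; rfl⟩
  choose c hc using hc
  let D : Finset (Fin s →₀ ℕ) := Finset.univ.biUnion fun i => (P i).support
  let e := D.equivFin
  let u : (Fin D.card → K)ˣ := MulEquiv.piUnits.symm fun a => Units.mk0 ((pm (e.symm a).1 : ℕ) : K)
    (Nat.cast_ne_zero.2 (pm_ne_zero _))
  let B : Matrix.GeneralLinearGroup (Fin D.card) K :=
    Units.map (Matrix.diagonalRingHom (Fin D.card) K).toMonoidHom u
  have hB : ∀ m : ℕ, ((B ^ m : Matrix.GeneralLinearGroup (Fin D.card) K) :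
      Matrix (Fin D.card) (Fin D.card) K) =
      Matrix.diagonal fun a => ((pm (e.symm a).1 : ℕ) : K) ^ m := by
    intro m
    rw [Units.val_pow_eq_pow_val]
    show (Matrix.diagonal fun a => ((pm (e.symm a).1 : ℕ) : K)) ^ m = _
    rw [Matrix.diagonal_pow]
    rfl
  refine ⟨K, inferInstance, hNF, K.val.toRingHom, D.card,
    Matrix.of fun i a => c i (e.symm a).1, B, fun _ => 1, fun F => ?_⟩
  have hval : ∀ (m : ℕ) (i : Fin (n + 1)), K.val.toRingHom ((Matrix.of fun i a =>
      c i (e.symm a).1).mulVec (((B ^ m : Matrix.GeneralLinearGroup (Fin D.card) K) :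
        Matrix (Fin D.card) (Fin D.card) K).mulVec fun _ => 1) i) =
      eval (fun j : Fin s => ((Nat.nth Nat.Prime j : ℕ) : L) ^ m) (P i) := by
    intro m i
    rw [hB, Matrix.mulVec, dotProduct, map_sum, eval_primes]
    have h1 : ∑ β ∈ (P i).support, (P i).coeff β * ((pm β : ℕ) : L) ^ m =
        ∑ β ∈ D, (P i).coeff β * ((pm β : ℕ) : L) ^ m := by
      refine Finset.sum_subset ?_ ?_
      · intro β hβ
        exact Finset.mem_biUnion.2 ⟨i, Finset.mem_univ i, hβ⟩
      · intro β _ hβ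
        rw [notMem_support_iff.1 hβ, zero_mul]
    rw [h1, ← Finset.sum_coe_sort D]
    refine Fintype.sum_equiv e.symm _ _ fun a => ?_
    rw [Matrix.mulVec_diagonal, mul_one, Matrix.of_apply, map_mul, map_pow, map_natCast, ← hc]
    rfl
  have hb : ∀ m : ℕ, eval (fun i => K.val.toRingHom ((Matrix.of fun i a =>
      c i (e.symm a).1).mulVec (((B ^ m : Matrix.GeneralLinearGroup (Fin D.card) K) :
        Matrix (Fin D.card) (Fin D.card) K).mulVec fun _ => 1) i)) F =
      eval (fun j : Fin s => ((Nat.nth Nat.Prime j : ℕ) : L) ^ m)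
        (aeval P F) := by
    intro m
    have h1 : aeval P F = bind₁ P F := rfl
    rw [h1, eval_bind]
    congr 2
    funext i
    exact hval m i
  constructor
  · intro h m
    rw [hb, h, map_zero]
  · intro h
    refine dense_powers _ fun m => ?_
    rw [← hb]
    exact h m

end Pool.Agent.TH138.UD
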