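import Pool.Agent.TH138.UD.U6

set_option autoImplicit false

/-!
# Projective varieties over a number field
-/

namespace Pool.Agent.TH138.UD

open MvPolynomial Pool.Agent.TH138.LG

section ideals

variable {k L σ : Type} [Field k] [Field L] [Algebra k L]

/-- the contraction of the extension of an ideal -/
theorem mem_of_map_mem (I : Ideal (MvPolynomial σ k)) (F : MvPolynomial σ k)
    (h : MvPolynomial.map (algebraMap k L) F ∈ I.map (MvPolynomial.map (algebraMap k L))) :
    F ∈ I := by
  classical
  obtain ⟨π, hπ⟩ := (Algebra.linearMap k L).exists_leftInverse_of_injective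
    (LinearMap.ker_eq_bot.2 (algebraMap k L).injective)
  have hπ1 : ∀ a : k, π (algebraMap k L a) = a := fun a => LinearMap.congr_fun hπ a
  let rt : MvPolynomial σ L → MvPolynomial σ k := fun G =>
    ∑ β ∈ G.support, monomial β (π (G.coeff β))
  have hc : ∀ (G : MvPolynomial σ L) (β : σ →₀ ℕ), (rt G).coeff β = π (G.coeff β) := by
    intro G β
    simp only [rt]
    rw [coeff_sum]
    simp only [coeff_monomial]
    rw [Finset.sum_ite_eq']
    split_ifs with hβ
    · rfl
    · rw [notMem_support_iff.1 hβ, map_zero]
  have hmul : ∀ (G : MvPolynomial σ L) (f : MvPolynomial σ k),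
      rt (G * MvPolynomial.map (algebraMap k L) f) = rt G * f := by
    intro G f
    ext β
    rw [hc, coeff_mul, coeff_mul, map_sum]
    refine Finset.sum_congr rfl fun x _ => ?_
    rw [coeff_map, hc, mul_comm, ← Algebra.smul_def, map_smul, smul_eq_mul, mul_comm]
  have hadd : ∀ G H : MvPolynomial σ L, rt (G + H) = rt G + rt H := by
    intro G H
    ext β
    rw [hc, coeff_add, coeff_add, hc, hc, map_add]
  have hone : rt 1 = 1 := by
    ext β
    rw [hc, coeff_one, coeff_one]
    split_ifs
    · simpa using hπ1 1
    · rw [map_zero]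
  have key : ∀ G ∈ I.map (MvPolynomial.map (algebraMap k L)), ∀ a : MvPolynomial σ L,
      rt (a * G) ∈ I := by
    intro G hG
    induction hG using Submodule.span_induction with
    | mem x hx =>
      obtain ⟨f, hf, rfl⟩ := hx
      intro a
      rw [hmul]
      exact I.mul_mem_left _ hf
    | zero =>
      intro a
      have : rt (a * 0) = 0 := by
        ext β
        rw [hc, mul_zero, coeff_zero, coeff_zero, map_zero]
      rw [this]
      exact I.zero_mem
    | add x y _ _ hx hy =>
      intro a
      rw [mul_add, hadd]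
      exact I.add_mem (hx a) (hy a)
    | smul c x _ hx =>
      intro a
      rw [smul_eq_mul, ← mul_assoc]
      exact hx _
  have h1 := key _ h 1
  rwa [hmul, hone, one_mul] at h1

theorem prime_of_map_prime (I : Ideal (MvPolynomial σ k))
    (h : (I.map (MvPolynomial.map (algebraMap k L))).IsPrime) : I.IsPrime := by
  have h1 : I = (I.map (MvPolynomial.map (algebraMap k L))).comap
      (MvPolynomial.map (algebraMap k L)) :=
    le_antisymm Ideal.le_comap_map fun F hF => mem_of_map_mem I F hF
  rw [h1]
  exact Ideal.IsPrime.comap _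

variable {n s : ℕ}

theorem aeval_eq_eval_map' {τ : Type} {R : Type} [CommRing R] [Algebra k R] [Algebra L R]
    [IsScalarTower k L R] (x : τ → R) (F : MvPolynomial τ k) :
    aeval x (MvPolynomial.map (algebraMap k L) F) = aeval x F := by
  rw [aeval_map_algebraMap]

attribute [local instance] MvPolynomial.algebraMvPolynomial

/-- a parametrisation, for polynomials over `k`, is one for polynomials over `L` -/
theorem upgrade [Algebra.IsAlgebraic k L] (I : Ideal (MvPolynomial (Fin (n + 1)) k))
    (hhom : ∀ F ∈ I, ∀ d : ℕ, homogeneousComponent d F ∈ I)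
    (hI : (I.map (MvPolynomial.map (algebraMap k L))).IsPrime)
    (P : Fin (n + 1) → MvPolynomial (Fin s) L)
    (h : ∀ (d : ℕ) (F : MvPolynomial (Fin (n + 1)) k), F.IsHomogeneous d →
      (F ∈ I ↔ aeval P F = 0)) :
    ∀ (d : ℕ) (F : MvPolynomial (Fin (n + 1)) L), F.IsHomogeneous d →
      (F ∈ I.map (MvPolynomial.map (algebraMap k L)) ↔ aeval P F = 0) := by
  classical
  let Q : Fin (n + 1) → Polynomial (MvPolynomial (Fin s) L) := fun i =>
    Polynomial.X * Polynomial.C (P i)
  have hQ : ∀ (d : ℕ) (F : MvPolynomial (Fin (n + 1)) L), F.IsHomogeneous d →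
      aeval Q F = Polynomial.X ^ d * Polynomial.C (aeval P F) := by
    intro d F hF
    have h1 : aeval Q F = Polynomial.X ^ d * aeval (fun i => Polynomial.C (P i)) F := by
      rw [aeval_def, aeval_def, eval₂_eq', eval₂_eq', Finset.mul_sum]
      refine Finset.sum_congr rfl fun β hβ => ?_
      have h1 : ∑ i, β i = d := by
        have h2 := hF (mem_support_iff.1 hβ)
        rw [Finsupp.weight_apply, Finsupp.sum_fintype _ _ (by simp)] at h2
        simpa using h2
      simp only [Q]
      simp_rw [mul_pow]
      rw [Finset.prod_mul_distrib, Finset.prod_pow_eq_pow_sum, h1]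
      ring
    rw [h1]
    congr 1
    exact (comp_aeval_apply (R := L) P
      (Algebra.ofId (MvPolynomial (Fin s) L) (Polynomial (MvPolynomial (Fin s) L)) |>.restrictScalars
        L) F).symm
  have hX : ∀ d : ℕ, (Polynomial.X : Polynomial (MvPolynomial (Fin s) L)) ^ d ≠ 0 := fun d =>
    pow_ne_zero _ Polynomial.X_ne_zero
  have hQ0 : ∀ (d : ℕ) (F : MvPolynomial (Fin (n + 1)) L), F.IsHomogeneous d →
      (aeval Q F = 0 ↔ aeval P F = 0) := by
    intro d F hF
    rw [hQ d F hF, mul_eq_zero, or_iff_right (hX d), Polynomial.C_eq_zero]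
  let q : Ideal (MvPolynomial (Fin (n + 1)) L) := RingHom.ker (aeval Q : _ →ₐ[L] _)
  have hqk : ∀ F : MvPolynomial (Fin (n + 1)) k,
      aeval Q (MvPolynomial.map (algebraMap k L) F) = 0 → F ∈ I := by
    intro F hF
    have h1 : ∀ d : ℕ, (aeval Q (MvPolynomial.map (algebraMap k L) F)).coeff d =
        aeval P (homogeneousComponent d F) := by
      intro d
      conv_lhs => rw [← sum_homogeneousComponent F]
      rw [map_sum, map_sum, Polynomial.finsetSum_coeff]
      have h2 : ∀ e : ℕ, (aeval Q (MvPolynomial.map (algebraMap k L)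
          (homogeneousComponent e F))).coeff d =
          if e = d then aeval P (homogeneousComponent d F) else 0 := by
        intro e
        rw [hQ e _ ((homogeneousComponent_isHomogeneous e F).map _), aeval_eq_eval_map',
          mul_comm, Polynomial.coeff_C_mul, Polynomial.coeff_X_pow]
        by_cases he : e = d
        · subst he
          simp
        · rw [if_neg (fun h => he h.symm), if_neg he, mul_zero]
      rw [Finset.sum_congr rfl fun e _ => h2 e, Finset.sum_ite_eq']
      split_ifs with hd
      · rfl
      · rw [homogeneousComponent_eq_zero, map_zero]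
        simpa using hd
    rw [← sum_homogeneousComponent F]
    refine I.sum_mem fun d _ => ?_
    rw [h d _ (homogeneousComponent_isHomogeneous d F), ← h1, hF, Polynomial.coeff_zero]
  have hle : I.map (MvPolynomial.map (algebraMap k L)) ≤ q := by
    rw [Ideal.map_le_iff_le_comap]
    intro F hF
    show aeval Q (MvPolynomial.map (algebraMap k L) F) = 0
    rw [← sum_homogeneousComponent F, map_sum, map_sum]
    refine Finset.sum_eq_zero fun d _ => ?_
    rw [hQ0 d _ ((homogeneousComponent_isHomogeneous d F).map _), aeval_eq_eval_map']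
    exact (h d _ (homogeneousComponent_isHomogeneous d F)).1 (hhom F hF d)
  have heq : q ≤ I.map (MvPolynomial.map (algebraMap k L)) := by
    intro F hF
    by_contra hF'
    have h1 := Ideal.comap_lt_comap_of_integral_mem_sdiff (R := MvPolynomial (Fin (n + 1)) k)
      (hI := hI) hle ⟨hF, hF'⟩ (Algebra.IsIntegral.isIntegral F)
    apply not_le_of_gt h1
    intro G hG
    have h2 : aeval Q (MvPolynomial.map (algebraMap k L) G) = 0 := hG
    exact Ideal.mem_map_of_mem _ (hqk G h2)
  intro d F hF
  rw [← hQ0 d F hF]
  exact ⟨fun h1 => hle h1, fun h1 => heq h1⟩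

end ideals

end Pool.Agent.TH138.UD
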