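import Pool.Agent.TH138.UD.U7

set_option autoImplicit false

/-!
# Potential density and families of points
-/

namespace Pool.Agent.TH138.UD

open MvPolynomial Pool.Agent.TH138.LG

variable {k : Type} [Field k] {n : ℕ}

/-- a finite union of closures of images of tori, dense in a projective variety over `k` -/
theorem uni_of_FU_k {L : Type} [Field L] [Infinite L] [Algebra k L]
    (J : Ideal (MvPolynomial (Fin (n + 1)) k)) (hJ : J.IsPrime) {X : Set (Fin (n + 1) → L)}
    (hX : FU X) (h : ∀ (d : ℕ) (F : MvPolynomial (Fin (n + 1)) k), F.IsHomogeneous d →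
      (F ∈ J ↔ ∀ x ∈ X, aeval x F = 0)) :
    ∃ (s : ℕ) (P : Fin (n + 1) → MvPolynomial (Fin s) L),
      ∀ (d : ℕ) (F : MvPolynomial (Fin (n + 1)) k), F.IsHomogeneous d →
        (F ∈ J ↔ aeval P F = 0) := by
  classical
  obtain ⟨N, s, P, hP⟩ := hX.list
  let μ := MvPolynomial.map (σ := Fin (n + 1)) (algebraMap k L)
  have hμ : ∀ (x : Fin (n + 1) → L) (F : MvPolynomial (Fin (n + 1)) k),
      aeval x F = eval x (μ F) := fun x F => (eval_map (algebraMap k L) x F).symm
  obtain ⟨j, hj⟩ : ∃ j, ∀ (d : ℕ) (F : MvPolynomial (Fin (n + 1)) k), F.IsHomogeneous d →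
      (∀ t : Fin (s j) → Lˣ, eval (tor (P j) t) (μ F) = 0) → F ∈ J := by
    by_contra hcon
    push Not at hcon
    choose d F hF hFt hFJ using hcon
    have h1 : (∏ j, F j) ∈ J := by
      refine (h _ _ (IsHomogeneous.prod Finset.univ F d fun j _ => hF j)).2 fun x hx => ?_
      rw [hμ]
      refine (hP (μ (∏ j, F j))).2 ?_ x hx
      intro j t
      rw [map_prod, map_prod]
      exact Finset.prod_eq_zero (Finset.mem_univ j) (hFt j t)
    obtain ⟨j, -, hj⟩ := hJ.prod_mem_iff.1 h1
    exact hFJ j hj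
  have hiff : ∀ (d : ℕ) (F : MvPolynomial (Fin (n + 1)) k), F.IsHomogeneous d →
      (F ∈ J ↔ ∀ t : Fin (s j) → Lˣ, eval (tor (P j) t) (μ F) = 0) := by
    intro d F hF
    refine ⟨fun h1 => (hP (μ F)).1 (fun x hx => ?_) j, hj d F hF⟩
    rw [← hμ]
    exact (h d F hF).1 h1 x hx
  choose E G hG using fun i => clear (P j i)
  let T : MvPolynomial (Fin (s j)) L := ∏ a, MvPolynomial.X a
  let P' : Fin (n + 1) → MvPolynomial (Fin (s j)) L := fun i => G i * T ^ (∑ a, E a - E i)
  have hP' : ∀ (t : Fin (s j) → Lˣ) (i : Fin (n + 1)),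
      eval (fun a => ((t a : Lˣ) : L)) (P' i) =
        (∏ a, ((t a : Lˣ) : L)) ^ (∑ a, E a) * tor (P j) t i := by
    intro t i
    have h1 : E i ≤ ∑ a, E a := Finset.single_le_sum (fun _ _ => Nat.zero_le _) (Finset.mem_univ i)
    have h2 : eval (fun a => ((t a : Lˣ) : L)) T = ∏ a, ((t a : Lˣ) : L) := by
      simp only [T]
      rw [map_prod]
      simp only [eval_X]
    show eval _ (G i * T ^ (∑ a, E a - E i)) = _
    rw [map_mul, hG i t, map_pow, h2]
    have h3 : (∏ a, ((t a : Lˣ) : L)) ^ (∑ a, E a) = (∏ a, ((t a : Lˣ) : L)) ^ (E i) *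
        (∏ a, ((t a : Lˣ) : L)) ^ (∑ a, E a - E i) := by
      rw [← pow_add]
      congr 1
      omega
    rw [h3]
    unfold tor
    ring
  refine ⟨s j, P', fun d F hF => ?_⟩
  have hev : ∀ t : Fin (s j) → Lˣ, eval (fun a => ((t a : Lˣ) : L)) (aeval P' F) =
      ((∏ a, ((t a : Lˣ) : L)) ^ (∑ a, E a)) ^ d * eval (tor (P j) t) (μ F) := by
    intro t
    have h1 : aeval P' F = bind₁ P' (μ F) := (aeval_eq_eval_map' (L := L) P' F).symm
    rw [h1, eval_bind]
    have h2 : (fun i => eval (fun a => ((t a : Lˣ) : L)) (P' i)) =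
        fun i => (∏ a, ((t a : Lˣ) : L)) ^ (∑ a, E a) * tor (P j) t i := funext (hP' t)
    rw [h2]
    exact aeval_mul_hom (L := L) (μ F) d (hF.map _) ((∏ a, ((t a : Lˣ) : L)) ^ (∑ a, E a))
      (tor (P j) t)
  rw [hiff d F hF]
  constructor
  · intro h1
    refine zero_of_units _ fun t => ?_
    rw [hev, h1 t, mul_zero]
  · intro h1 t
    have h2 := hev t
    rw [h1, map_zero] at h2
    refine (mul_eq_zero.1 h2.symm).resolve_left (pow_ne_zero _ (pow_ne_zero _ ?_))
    exact Finset.prod_ne_zero_iff.2 fun a _ => (t a).ne_zero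

/-- **A parametrised variety over `k` has a dense one-letter family.** -/
theorem family_of_uni_k {s : ℕ} [NumberField k]
    (P : Fin (n + 1) → MvPolynomial (Fin s) (AlgebraicClosure k)) :
    ∃ (K : Type) (_ : Field K) (_ : NumberField K) (_ : Algebra k K) (r : ℕ)
      (M : Matrix (Fin (n + 1)) (Fin r) K) (B : Matrix.GeneralLinearGroup (Fin r) K)
      (v : Fin r → K), ∀ F : MvPolynomial (Fin (n + 1)) k,
        aeval P F = 0 ↔ ∀ m : ℕ, aeval (M.mulVec
          (((B ^ m : Matrix.GeneralLinearGroup (Fin r) K) :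
            Matrix (Fin r) (Fin r) K).mulVec v)) F = 0 := by
  classical
  let L := AlgebraicClosure k
  let S : Finset L := Finset.univ.biUnion fun i => (P i).support.image fun β => (P i).coeff β
  let K := IntermediateField.adjoin k (S : Set L)
  have hfd : FiniteDimensional k K := IntermediateField.finiteDimensional_adjoin
    (S := (S : Set L)) fun x _ => (Algebra.IsAlgebraic.isAlgebraic x).isIntegral
  have hNF : NumberField K := NumberField.of_module_finite k K
  have hc : ∀ (i : Fin (n + 1)) (β : Fin s →₀ ℕ), ∃ c : K, (c : L) = (P i).coeff β := by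
    intro i β
    by_cases hβ : β ∈ (P i).support
    · refine ⟨⟨(P i).coeff β, IntermediateField.subset_adjoin _ _ ?_⟩, rfl⟩
      rw [Finset.mem_coe, Finset.mem_biUnion]
      exact ⟨i, Finset.mem_univ i, Finset.mem_image.2 ⟨β, hβ, rfl⟩⟩
    · exact ⟨0, by rw [notMem_support_iff.1 hβ]; rfl⟩
  choose c hc using hc
  let D : Finset (Fin s →₀ ℕ) := Finset.univ.biUnion fun i => (P i).support
  let e := D.equivFin
  let u : (Fin D.card → K)ˣ := MulEquiv.piUnits.symm fun a => Units.mk0 ((pm (e.symm a).1 : ℕ) : K)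
    (Nat.cast_ne_zero.2 (pm_ne_zero _))
  let B : Matrix.GeneralLinearGroup (Fin D.card) K :=
    Units.map (Matrix.diagonalRingHom (Fin D.card) K).toMonoidHom u
  have hB : ∀ m : ℕ, ((B ^ m : Matrix.GeneralLinearGroup (Fin D.card) K) :
      Matrix (Fin D.card) (Fin D.card) K) =
      Matrix.diagonal fun a => ((pm (e.symm a).1 : ℕ) : K) ^ m := by
    intro m
    rw [Units.val_pow_eq_pow_val]
    show (Matrix.diagonal fun a => ((pm (e.symm a).1 : ℕ) : K)) ^ m = _
    rw [Matrix.diagonal_pow]
    rfl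
  refine ⟨K, inferInstance, hNF, inferInstance, D.card,
    Matrix.of fun i a => c i (e.symm a).1, B, fun _ => 1, fun F => ?_⟩
  have hval : ∀ (m : ℕ) (i : Fin (n + 1)), algebraMap K L ((Matrix.of fun i a =>
      c i (e.symm a).1).mulVec (((B ^ m : Matrix.GeneralLinearGroup (Fin D.card) K) :
        Matrix (Fin D.card) (Fin D.card) K).mulVec fun _ => 1) i) =
      eval (fun j : Fin s => ((Nat.nth Nat.Prime j : ℕ) : L) ^ m) (P i) := by
    intro m i
    rw [hB, Matrix.mulVec, dotProduct, map_sum, eval_primes]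
    have h1 : ∑ β ∈ (P i).support, (P i).coeff β * ((pm β : ℕ) : L) ^ m =
        ∑ β ∈ D, (P i).coeff β * ((pm β : ℕ) : L) ^ m := by
      refine Finset.sum_subset ?_ ?_
      · intro β hβ
        exact Finset.mem_biUnion.2 ⟨i, Finset.mem_univ i, hβ⟩
      · intro β _ hβ
        rw [notMem_support_iff.1 hβ, zero_mul]
    rw [h1, ← Finset.sum_coe_sort D]
    refine Fintype.sum_equiv e.symm _ _ fun a => ?_
    rw [Matrix.mulVec_diagonal, mul_one, Matrix.of_apply, map_mul, map_pow, map_natCast, ← hc]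
    rfl
  have hb : ∀ m : ℕ, algebraMap K L (aeval ((Matrix.of fun i a =>
      c i (e.symm a).1).mulVec (((B ^ m : Matrix.GeneralLinearGroup (Fin D.card) K) :
        Matrix (Fin D.card) (Fin D.card) K).mulVec fun _ => 1)) F) =
      eval (fun j : Fin s => ((Nat.nth Nat.Prime j : ℕ) : L) ^ m) (aeval P F) := by
    intro m
    have h1 : aeval P F = bind₁ P (MvPolynomial.map (algebraMap k L) F) :=
      (aeval_eq_eval_map' (L := L) P F).symm
    rw [h1, eval_bind, eval_map]
    have h2 := comp_aeval_apply (R := k) ((Matrix.of fun i a =>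
      c i (e.symm a).1).mulVec (((B ^ m : Matrix.GeneralLinearGroup (Fin D.card) K) :
        Matrix (Fin D.card) (Fin D.card) K).mulVec fun _ => 1))
      (IsScalarTower.toAlgHom k K L) F
    have h3 : (IsScalarTower.toAlgHom k K L) (aeval ((Matrix.of fun i a =>
      c i (e.symm a).1).mulVec (((B ^ m : Matrix.GeneralLinearGroup (Fin D.card) K) :
        Matrix (Fin D.card) (Fin D.card) K).mulVec fun _ => 1)) F) =
        algebraMap K L (aeval ((Matrix.of fun i a =>
      c i (e.symm a).1).mulVec (((B ^ m : Matrix.GeneralLinearGroup (Fin D.card) K) :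
        Matrix (Fin D.card) (Fin D.card) K).mulVec fun _ => 1)) F) := rfl
    rw [← h3, h2, aeval_def]
    congr 1
    funext i
    exact hval m i
  have hinj : Function.Injective (algebraMap K L) := (algebraMap K L).injective
  constructor
  · intro h m
    apply hinj
    rw [hb, h, map_zero, map_zero]
  · intro h
    refine dense_powers _ fun m => ?_
    rw [← hb, h m, map_zero]

/-- **Potential density of a projective variety with a context-free family of points.** -/
theorem density [NumberField k] (I : Ideal (MvPolynomial (Fin (n + 1)) k))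
    (hhom : ∀ F ∈ I, ∀ d : ℕ, homogeneousComponent d F ∈ I)
    (hI : (I.map (MvPolynomial.map (algebraMap k (AlgebraicClosure k)))).IsPrime) :
    List.TFAE [
      ∃ (s : ℕ) (P : Fin (n + 1) → MvPolynomial (Fin s) (AlgebraicClosure k)),
        ∀ (d : ℕ) (F : MvPolynomial (Fin (n + 1)) (AlgebraicClosure k)), F.IsHomogeneous d →
          (F ∈ I.map (MvPolynomial.map (algebraMap k (AlgebraicClosure k))) ↔ aeval P F = 0),
      ∃ (K : Type) (_ : Field K) (_ : NumberField K) (_ : Algebra k K) (r : ℕ)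
        (M : Matrix (Fin (n + 1)) (Fin r) K) (B : Matrix.GeneralLinearGroup (Fin r) K)
        (v : Fin r → K), ∀ (d : ℕ) (F : MvPolynomial (Fin (n + 1)) k), F.IsHomogeneous d →
          (F ∈ I ↔ ∀ m : ℕ, aeval (M.mulVec (((B ^ m : Matrix.GeneralLinearGroup (Fin r) K) :
            Matrix (Fin r) (Fin r) K).mulVec v)) F = 0),
      ∃ (K : Type) (_ : Field K) (_ : NumberField K) (_ : Algebra k K) (A : Type) (_ : Finite A)
        (r : ℕ) (M : Matrix (Fin (n + 1)) (Fin r) K) (ρ : A → Matrix.GeneralLinearGroup (Fin r) K)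
        (v : Fin r → K) (g : ContextFreeGrammar A), ∀ (d : ℕ) (F : MvPolynomial (Fin (n + 1)) k),
          F.IsHomogeneous d → (F ∈ I ↔ ∀ w ∈ g.language, aeval (affVec M ρ v w) F = 0)] := by
  tfae_have 1 → 2 := by
    rintro ⟨s, P, hP⟩
    obtain ⟨K, h1, h2, h3, r, M, B, v, h4⟩ := family_of_uni_k P
    refine ⟨K, h1, h2, h3, r, M, B, v, fun d F hF => ?_⟩
    rw [← h4 F, ← aeval_eq_eval_map' (L := AlgebraicClosure k) P F, ← hP d _ (hF.map _)]
    exact ⟨fun h => Ideal.mem_map_of_mem _ h, mem_of_map_mem I F⟩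
  tfae_have 2 → 3 := by
    rintro ⟨K, h1, h2, h3, r, M, B, v, h4⟩
    refine ⟨K, h1, h2, h3, Unit, inferInstance, r, M, fun _ => B, v, allWords Unit,
      fun d F hF => ?_⟩
    rw [h4 d F hF]
    have h5 : ∀ w : List Unit, affVec M (fun _ => B) v w = M.mulVec
        (((B ^ w.length : Matrix.GeneralLinearGroup (Fin r) K) :
          Matrix (Fin r) (Fin r) K).mulVec v) := by
      intro w
      unfold affVec
      rw [List.map_const', List.prod_replicate]
    constructor
    · intro h w _
      rw [h5]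
      exact h _
    · intro h m
      have h6 := h (List.replicate m ()) (mem_allWords Unit _)
      rw [h5, List.length_replicate] at h6
      exact h6
  tfae_have 3 → 1 := by
    rintro ⟨K, h1, h2, h3, A, hA, r, M, ρ, v, g, h4⟩
    have hfin : FiniteDimensional k K := Module.Finite.of_restrictScalars_finite ℚ k K
    let φ : K →ₐ[k] AlgebraicClosure k := IsAlgClosed.lift
    have hFU := vectors_FU φ.toRingHom M ρ v g
    obtain ⟨s, P, hP⟩ := uni_of_FU_k I (prime_of_map_prime I hI) hFU (by
      intro d F hF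
      rw [h4 d F hF]
      have h5 : ∀ w : List A, aeval (fun i => φ.toRingHom (affVec M ρ v w i)) F =
          φ (aeval (affVec M ρ v w) F) := fun w => (comp_aeval_apply (R := k) _ φ F).symm
      constructor
      · rintro h6 _ ⟨w, hw, rfl⟩
        rw [h5, h6 w hw, map_zero]
      · intro h6 w hw
        have h7 := h6 _ ⟨w, hw, rfl⟩
        rw [h5] at h7
        exact (map_eq_zero φ).1 h7)
    exact ⟨s, P, upgrade I hhom hI P hP⟩
  tfae_finish

end Pool.Agent.TH138.UD
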